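import Pool.Agent.R462.HC.PubDef

/-!
Public definition: velocity fields nearly parallel to a smooth vector field.
-/

set_option autoImplicit false

open MeasureTheory Set
open scoped InnerProductSpace ContDiff

namespace Pool.Agent.E8helper68.UD

open H772R2.NS.Pub Pool.Agent.R462.HC

/-- In `V` the velocity field `u` (in `Ω`) is nearly parallel to a field of directions: there is a
continuously differentiable vector field `d` with `|d| ≤ 1` and `|∇d| ≤ Λ` in `V` such that the
part `v = u - (d·u) d` of the velocity (for `|d| = 1` the component perpendicular to `d`) satisfies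
one of the following conditions almost everywhere in `Ω ∩ V`:
* `|v|² ≤ K W + B` with a potential `W` which is form bounded in `Ω ∩ V`, with the bound one;
* `|v(x)| ≤ K / |x - y| + √B` for some point `y ∈ ℝ³`.
There is no condition on the component of the velocity along `d`. -/
def NearlyParallelIn {Ω : Set R3} (V : Set R3) (K B Λ : ℝ) (u : L2 Ω R3) : Prop :=
  ∃ d : R3 → R3, ContDiff ℝ 1 d ∧ (∀ x ∈ V, ‖d x‖ ≤ 1 ∧ ‖fderiv ℝ d x‖ ≤ Λ) ∧
    ((∃ W : R3 → ℝ, FormBdd (Ω ∩ V) W ∧ ∀ᵐ x ∂(volume.restrict (Ω ∩ V)),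
        ‖u.fn x - ⟪d x, u.fn x⟫_ℝ • d x‖ ^ 2 ≤ K * W x + B) ∨
      ∃ y : R3, ∀ᵐ x ∂(volume.restrict (Ω ∩ V)),
        ‖u.fn x - ⟪d x, u.fn x⟫_ℝ • d x‖ ≤ K / ‖x - y‖ + √B)

end Pool.Agent.E8helper68.UD
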