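import Pool.Agent.R772.LV3

/-!
The convective term of a divergence free field and a field of directions: the smooth identity.
-/

set_option autoImplicit false

open MeasureTheory Set Filter Topology
open scoped InnerProductSpace ContDiff ENNReal

namespace Pool.Agent.E8helper68.UD

open H772R2.NS Pool.Agent.TH340.FF Pool.Agent.R462.HC Pool.Agent.R772.LI Pool.Agent.R772.LV

variable {Ω : Set E3}

/-- the product of a matrix and a vector -/
noncomputable def mv (A : M3) (v : E3) : E3 := WithLp.toLp 2 fun i => ∑ j, A (i, j) * v j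

theorem mv_apply (A : M3) (v : E3) (i : Fin 3) : mv A v i = ∑ j, A (i, j) * v j := rfl

theorem sum_ev (v : E3) : v = ∑ j, v j • ev j := by
  refine PiLp.ext fun i => ?_
  simp [ev, Fin.sum_univ_three]
  fin_cases i <;> simp

theorem mv_jac (ψ : E3 → E3) (x y : E3) : mv (jac ψ x) y = fderiv ℝ ψ x y := by
  refine PiLp.ext fun i => ?_
  rw [mv_apply]
  conv_rhs => rw [sum_ev y]
  rw [map_sum]
  simp only [map_smul, Fin.sum_univ_three, PiLp.add_apply, PiLp.smul_apply, smul_eq_mul, jac_apply]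
  ring

theorem mv_sub (A : M3) (v w : E3) : mv A (v - w) = mv A v - mv A w := by
  refine PiLp.ext fun i => ?_
  simp only [mv_apply, PiLp.sub_apply, Fin.sum_univ_three]
  ring

theorem mv_smul (A : M3) (c : ℝ) (w : E3) : mv A (c • w) = c • mv A w := by
  refine PiLp.ext fun i => ?_
  simp only [mv_apply, PiLp.smul_apply, Fin.sum_univ_three, smul_eq_mul]
  ring

/-- the integral of a divergence -/
theorem int_div {X : E3 → E3} (hX : ContDiff ℝ 1 X) {g : E3 → ℝ} (hg : ContDiff ℝ 1 g)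
    (hc : HasCompactSupport g) :
    ∫ x, (fderiv ℝ g x (X x) + g x * dv X x) = 0 := by
  have hXj : ∀ j : Fin 3, ContDiff ℝ 1 fun x => X x j := fun j =>
    (EuclideanSpace.proj (𝕜 := ℝ) j : E3 →L[ℝ] ℝ).contDiff.comp hX
  have hXd : ∀ (j : Fin 3) x, fderiv ℝ (fun x => X x j) x (ev j) = jac X x (j, j) := by
    intro j x
    have h1 : HasFDerivAt X (fderiv ℝ X x) x := (hX.differentiable (by norm_num) x).hasFDerivAt
    have h2 := ((EuclideanSpace.proj (𝕜 := ℝ) j : E3 →L[ℝ] ℝ).hasFDerivAt).comp x h1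
    have h3 : fderiv ℝ (fun x => X x j) x
        = (EuclideanSpace.proj (𝕜 := ℝ) j : E3 →L[ℝ] ℝ).comp (fderiv ℝ X x) := h2.fderiv
    rw [h3]
    rfl
  have e1 : ∀ x, fderiv ℝ g x (X x) + g x * dv X x
      = ∑ j, fderiv ℝ (fun x => g x * X x j) x (ev j) := by
    intro x
    have h1 : ∀ j, fderiv ℝ (fun x => g x * X x j) x (ev j)
        = g x * jac X x (j, j) + X x j * fderiv ℝ g x (ev j) := by
      intro j
      rw [fderiv_fun_mul (hg.differentiable (by norm_num) x)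
        ((hXj j).differentiable (by norm_num) x)]
      show g x * fderiv ℝ (fun x => X x j) x (ev j) + X x j * fderiv ℝ g x (ev j) = _
      rw [hXd]
    simp_rw [h1]
    rw [Finset.sum_add_distrib, ← Finset.mul_sum]
    have h2 : fderiv ℝ g x (X x) = ∑ j, X x j * fderiv ℝ g x (ev j) := by
      conv_lhs => rw [sum_ev (X x)]
      rw [map_sum]
      refine Finset.sum_congr rfl fun j _ => ?_
      rw [map_smul, smul_eq_mul]
    rw [h2]
    unfold dv
    ring
  simp_rw [e1]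
  have hG : ∀ j, ContDiff ℝ 1 fun x => g x * X x j := fun j => hg.mul (hXj j)
  have hGc : ∀ j, HasCompactSupport fun x => g x * X x j := fun j => hc.mul_right
  have hd : ∀ j, Continuous fun x => fderiv ℝ (fun x => g x * X x j) x (ev j) := fun j =>
    ((hG j).continuous_fderiv (by norm_num)).clm_apply continuous_const
  have hdc : ∀ j, HasCompactSupport fun x => fderiv ℝ (fun x => g x * X x j) x (ev j) := fun j =>
    ((hGc j).fderiv (𝕜 := ℝ)).comp_left (g := fun L : E3 →L[ℝ] ℝ => L (ev j)) (by simp)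
  have hi : ∀ j, Integrable fun x => fderiv ℝ (fun x => g x * X x j) x (ev j) := fun j =>
    (hd j).integrable_of_hasCompactSupport (hdc j)
  rw [integral_finsetSum _ fun j _ => hi j]
  refine Finset.sum_eq_zero fun j _ => ?_
  have h1 := integral_mul_fderiv_eq_neg_fderiv_mul_of_integrable (μ := (volume : Measure E3))
    (f := fun _ => (1 : ℝ)) (g := fun x => g x * X x j) (v := ev j)
    (by simp)
    (by simpa using hi j)
    (by simpa using (hG j).continuous.integrable_of_hasCompactSupport (hGc j))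
    (fun x _ => differentiableAt_const _)
    (fun x _ => (hG j).differentiable (by norm_num) x)
  simpa using h1

/-- the density of the convective term: `a = ψ`, `A = ∇ψ` -/
noncomputable def EE (η : E3 → ℝ) (e φ : E3 → E3) (x : E3) (a : E3) (A : M3) : ℝ :=
  η x * ⟪φ x, mv A a⟫_ℝ
  + fderiv ℝ η x a * ⟪φ x, a - ⟪e x, a⟫_ℝ • e x⟫_ℝ
  + η x * ⟪fderiv ℝ φ x a, a - ⟪e x, a⟫_ℝ • e x⟫_ℝ
  - η x * ⟪e x, a⟫_ℝ * ⟪φ x, fderiv ℝ e x a⟫_ℝ
  - 2 * η x * ⟪e x, φ x⟫_ℝ * (⟪a, fderiv ℝ e x (a - ⟪e x, a⟫_ℝ • e x)⟫_ℝ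
      + ⟪e x, mv A (a - ⟪e x, a⟫_ℝ • e x)⟫_ℝ)
  - fderiv ℝ η x (a - ⟪e x, a⟫_ℝ • e x) * ⟪e x, a⟫_ℝ * ⟪e x, φ x⟫_ℝ
  - η x * ⟪e x, a⟫_ℝ * ⟪φ x, fderiv ℝ e x (a - ⟪e x, a⟫_ℝ • e x)⟫_ℝ
  - η x * ⟪e x, a⟫_ℝ * ⟪e x, fderiv ℝ φ x (a - ⟪e x, a⟫_ℝ • e x)⟫_ℝ
  + η x * ⟪e x, a⟫_ℝ ^ 2 * ⟪e x, φ x⟫_ℝ * dv e x

theorem EE_zero {η : E3 → ℝ} {e φ : E3 → E3} {x : E3} (h1 : φ x = 0) (h2 : fderiv ℝ φ x = 0)
    (a : E3) (A : M3) : EE η e φ x a A = 0 := by
  unfold EE
  rw [h1, h2]
  simp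

/-- **The identity for test fields.** -/
theorem smooth_id {Ω' : Set E3} {ψ φ : E3 → E3} (hψ : IsTest Ω ψ) (hφ : IsTest Ω' φ) {η : E3 → ℝ}
    (hη : ContDiff ℝ ∞ η) {e : E3 → E3} (he : ContDiff ℝ 1 e) :
    ∫ x, EE η e φ x (ψ x) (jac ψ x) = 0 := by
  have cψ : ContDiff ℝ 1 ψ := hψ.smooth.of_le (by exact_mod_cast le_top)
  have cφ : ContDiff ℝ 1 φ := hφ.smooth.of_le (by exact_mod_cast le_top)
  have cη : ContDiff ℝ 1 η := hη.of_le (by exact_mod_cast le_top)
  have cs : ContDiff ℝ 1 fun x => ⟪e x, ψ x⟫_ℝ := he.inner ℝ cψ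
  have cp : ContDiff ℝ 1 fun x => ⟪e x, φ x⟫_ℝ := he.inner ℝ cφ
  have cw : ContDiff ℝ 1 fun x => ψ x - ⟪e x, ψ x⟫_ℝ • e x := cψ.sub (cs.smul he)
  set f : E3 → ℝ := fun x => η x * ⟪φ x, ψ x - ⟪e x, ψ x⟫_ℝ • e x⟫_ℝ with hf
  set g : E3 → ℝ := fun x => η x * ⟪e x, ψ x⟫_ℝ * ⟪e x, φ x⟫_ℝ with hg
  have cf : ContDiff ℝ 1 f := cη.mul (cφ.inner ℝ cw)
  have cg : ContDiff ℝ 1 g := (cη.mul cs).mul cp
  have cgs : ContDiff ℝ 1 fun x => g x * ⟪e x, ψ x⟫_ℝ := cg.mul cs
  have sf : HasCompactSupport f := by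
    refine hφ.compact.mono fun x hx h0 => hx ?_
    simp [hf, h0]
  have sg : HasCompactSupport g := by
    refine hφ.compact.mono fun x hx h0 => hx ?_
    simp [hg, h0]
  have sgs : HasCompactSupport fun x => g x * ⟪e x, ψ x⟫_ℝ := sg.mul_right
  have dψ : ∀ x, dv ψ x = 0 := fun x => hψ.divfree x
  have i1 := int_div cψ cf sf
  have i2 := int_div cψ cg sg
  have i3 := int_div he cgs sgs
  simp only [dψ, mul_zero, add_zero] at i1 i2
  have j1 : Integrable fun x => fderiv ℝ f x (ψ x) :=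
    ((cf.continuous_fderiv (by norm_num)).clm_apply
      cψ.continuous).integrable_of_hasCompactSupport
      (sf.fderiv (𝕜 := ℝ) |>.mono fun x hx h0 => hx (by simp [h0]))
  have j2 : Integrable fun x => fderiv ℝ g x (ψ x) :=
    ((cg.continuous_fderiv (by norm_num)).clm_apply
      cψ.continuous).integrable_of_hasCompactSupport
      (sg.fderiv (𝕜 := ℝ) |>.mono fun x hx h0 => hx (by simp [h0]))
  have cdv : Continuous (dv e) := by
    unfold dv
    refine continuous_finsetSum _ fun j _ => ?_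
    have : (fun x => jac e x (j, j)) = fun x => (fderiv ℝ e x (ev j)) j := rfl
    rw [this]
    exact (EuclideanSpace.proj (𝕜 := ℝ) j : E3 →L[ℝ] ℝ).continuous.comp
      ((he.continuous_fderiv (by norm_num)).clm_apply continuous_const)
  have j3 : Integrable fun x => fderiv ℝ (fun x => g x * ⟪e x, ψ x⟫_ℝ) x (e x)
      + g x * ⟪e x, ψ x⟫_ℝ * dv e x := by
    refine Integrable.add ?_ ?_
    · exact ((cgs.continuous_fderiv (by norm_num)).clm_apply
        he.continuous).integrable_of_hasCompactSupport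
        (sgs.fderiv (𝕜 := ℝ) |>.mono fun x hx h0 => hx (by simp [h0]))
    · exact (cgs.continuous.mul cdv).integrable_of_hasCompactSupport sgs.mul_right
  have key : ∀ x, EE η e φ x (ψ x) (jac ψ x) = fderiv ℝ f x (ψ x) - fderiv ℝ g x (ψ x)
      + (fderiv ℝ (fun x => g x * ⟪e x, ψ x⟫_ℝ) x (e x) + g x * ⟪e x, ψ x⟫_ℝ * dv e x) := by
    intro x
    have d1 : HasFDerivAt ψ (fderiv ℝ ψ x) x := (cψ.differentiable (by norm_num) x).hasFDerivAt
    have d2 : HasFDerivAt φ (fderiv ℝ φ x) x := (cφ.differentiable (by norm_num) x).hasFDerivAt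
    have d3 : HasFDerivAt η (fderiv ℝ η x) x := (cη.differentiable (by norm_num) x).hasFDerivAt
    have d4 : HasFDerivAt e (fderiv ℝ e x) x := (he.differentiable (by norm_num) x).hasFDerivAt
    have ds := d4.inner ℝ d1
    have dp := d4.inner ℝ d2
    have dw := d1.sub (ds.smul d4)
    have df := d3.mul (d2.inner ℝ dw)
    have dg := (d3.mul ds).mul dp
    have dgs := dg.mul ds
    have ef : fderiv ℝ f x = _ := df.fderiv
    have eg : fderiv ℝ g x = _ := dg.fderiv
    have egs : fderiv ℝ (fun x => g x * ⟪e x, ψ x⟫_ℝ) x = _ := dgs.fderiv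
    rw [ef, eg, egs]
    unfold EE
    simp only [mv_jac]
    simp only [hg, add_apply, smul_apply, ContinuousLinearMap.comp_apply,
      ContinuousLinearMap.prod_apply, fderivInnerCLM_apply, sub_apply,
      ContinuousLinearMap.smulRight_apply, Pi.sub_apply, Pi.smul_apply', Pi.mul_apply,
      map_sub, map_smul, smul_eq_mul, inner_sub_right, inner_smul_right, inner_add_right]
    rw [real_inner_comm (e x) (φ x), real_inner_comm (ψ x) (fderiv ℝ e x (ψ x)),
      real_inner_comm (ψ x) (fderiv ℝ e x (e x)), real_inner_comm (φ x) (fderiv ℝ e x (ψ x)),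
      real_inner_comm (φ x) (fderiv ℝ e x (e x)), real_inner_comm (e x) (fderiv ℝ φ x (ψ x))]
    ring
  simp_rw [key]
  have j12 : Integrable fun x => fderiv ℝ f x (ψ x) - fderiv ℝ g x (ψ x) := j1.sub j2
  rw [integral_add j12 j3, integral_sub j1 j2, i1, i2, i3]
  simp

end Pool.Agent.E8helper68.UD
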