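import Pool.Agent.E8helper68.UD.UD1

/-!
The convective term of a divergence free field and a field of directions: passage to the limit.
-/

set_option autoImplicit false

open MeasureTheory Set Filter Topology
open scoped InnerProductSpace ContDiff ENNReal

namespace Pool.Agent.E8helper68.UD

open H772R2.NS Pool.Agent.TH340.FF Pool.Agent.R462.HC Pool.Agent.R772.LI Pool.Agent.R772.LV

variable {Ω : Set E3}

section op

variable {F₁ F₂ : Type*} [NormedAddCommGroup F₁] [NormedSpace ℝ F₁] [NormedAddCommGroup F₂]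
  [NormedSpace ℝ F₂]

/-- multiplication by a bounded continuous field of operators -/
theorem exists_op (Ω : Set E3) {c : E3 → F₁ →L[ℝ] F₂} (hc : Continuous c)
    (hs : HasCompactSupport c) :
    ∃ T : Lp F₁ 2 ((volume : Measure E3).restrict Ω) →L[ℝ] Lp F₂ 2 (volume.restrict Ω),
      ∀ v, T v =ᵐ[volume.restrict Ω] fun x => c x (v x) := by
  have hm : MemLp c ∞ ((volume : Measure E3).restrict Ω) :=
    (hc.memLp_of_hasCompactSupport hs).restrict Ω
  refine ⟨((ContinuousLinearMap.id ℝ (F₁ →L[ℝ] F₂)).flip.holderL (volume.restrict Ω) 2 ∞ 2).flip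
    (hm.toLp c), fun v => ?_⟩
  have h1 := (ContinuousLinearMap.id ℝ (F₁ →L[ℝ] F₂)).flip.coeFn_holder (r := 2) v (hm.toLp c)
  filter_upwards [h1, hm.coeFn_toLp] with x a b
  refine Eq.trans a ?_
  rw [b]
  rfl

end op

/-- the functional `⟪a, ·⟫` -/
noncomputable def ip (a : E3) : E3 →L[ℝ] ℝ := innerSL ℝ a

theorem ip_apply (a b : E3) : ip a b = ⟪a, b⟫_ℝ := rfl

theorem ip_cont : Continuous ip := (innerSL ℝ).continuous

/-- the part perpendicular to `a` -/
noncomputable def Pm (a : E3) : E3 →L[ℝ] E3 :=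
  ContinuousLinearMap.id ℝ E3 - (ip a).smulRight a

theorem Pm_apply (a v : E3) : Pm a v = v - ⟪a, v⟫_ℝ • a := rfl

theorem sr_cont {X : Type*} [TopologicalSpace X] {f : X → E3 →L[ℝ] ℝ} {g : X → E3}
    (hf : Continuous f) (hg : Continuous g) : Continuous fun x => (f x).smulRight (g x) :=
  ((ContinuousLinearMap.smulRightL ℝ E3 E3).continuous.comp hf).clm_apply hg

theorem Pm_cont : Continuous Pm :=
  continuous_const.sub (sr_cont ip_cont continuous_id)

/-- the matrix `a_i b_j` -/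
noncomputable def tn0 : E3 →ₗ[ℝ] E3 →ₗ[ℝ] M3 :=
  LinearMap.mk₂ ℝ (fun a b : E3 => (WithLp.toLp 2 fun r : Fin 3 × Fin 3 => a r.1 * b r.2 : M3))
    (fun a b w => PiLp.ext fun r => by
      simp only [PiLp.add_apply]
      ring)
    (fun c a w => PiLp.ext fun r => by
      simp only [PiLp.smul_apply, smul_eq_mul]
      ring)
    (fun a b w => PiLp.ext fun r => by
      simp only [PiLp.add_apply]
      ring)
    (fun c a w => PiLp.ext fun r => by
      simp only [PiLp.smul_apply, smul_eq_mul]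
      ring)

noncomputable def tn : E3 →L[ℝ] E3 →L[ℝ] M3 :=
  LinearMap.toContinuousLinearMap
    ((LinearMap.toContinuousLinearMap : (E3 →ₗ[ℝ] M3) ≃ₗ[ℝ] (E3 →L[ℝ] M3)).toLinearMap ∘ₗ tn0)

theorem tn_apply (v w : E3) (i j : Fin 3) : tn v w (i, j) = v i * w j := rfl

theorem inner_tn (a b : E3) (A : M3) : ⟪tn a b, A⟫_ℝ = ⟪a, mv A b⟫_ℝ := by
  rw [inner_M3, inner_E3]
  simp only [tn_apply, mv_apply, Fin.sum_univ_three]
  ring

/-- the coefficients of the quadratic part -/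
noncomputable def Nx (η : E3 → ℝ) (e φ : E3 → E3) (x : E3) : E3 →L[ℝ] E3 :=
  (fderiv ℝ η x).smulRight (Pm (e x) (φ x))
  + η x • (Pm (e x)).comp (fderiv ℝ φ x)
  - η x • ((ip (φ x)).comp (fderiv ℝ e x)).smulRight (e x)
  - (2 * η x * ⟪e x, φ x⟫_ℝ) • (fderiv ℝ e x).comp (Pm (e x))
  - ⟪e x, φ x⟫_ℝ • ((fderiv ℝ η x).comp (Pm (e x))).smulRight (e x)
  - η x • ((ip (φ x)).comp ((fderiv ℝ e x).comp (Pm (e x)))).smulRight (e x)
  - η x • ((ip (e x)).comp ((fderiv ℝ φ x).comp (Pm (e x)))).smulRight (e x)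
  + (η x * ⟪e x, φ x⟫_ℝ * dv e x) • (ip (e x)).smulRight (e x)

/-- the coefficients of the part with the gradient -/
noncomputable def Lx (η : E3 → ℝ) (e φ : E3 → E3) (x : E3) : E3 →L[ℝ] M3 :=
  η x • tn (φ x) - (2 * η x * ⟪e x, φ x⟫_ℝ) • (tn (e x)).comp (Pm (e x))

theorem EE_eq (η : E3 → ℝ) (e φ : E3 → E3) (x a : E3) (A : M3) :
    EE η e φ x a A = ⟪Nx η e φ x a, a⟫_ℝ + ⟪Lx η e φ x a, A⟫_ℝ := by
  unfold EE Nx Lx
  simp only [add_apply, sub_apply, smul_apply, ContinuousLinearMap.smulRight_apply,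
    ContinuousLinearMap.comp_apply, ip_apply, inner_add_left, inner_sub_left, real_inner_smul_left,
    inner_tn]
  simp only [Pm_apply, inner_sub_left, inner_sub_right, real_inner_smul_left,
    real_inner_smul_right]
  rw [real_inner_comm a (fderiv ℝ e x (a - ⟪e x, a⟫_ℝ • e x)), real_inner_comm (φ x) (e x),
    real_inner_comm (e x) (fderiv ℝ φ x a)]
  ring

theorem dv_cont1 {e : E3 → E3} (he : ContDiff ℝ 1 e) : Continuous (dv e) := by
  unfold dv
  refine continuous_finsetSum _ fun j _ => ?_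
  have : (fun x => jac e x (j, j)) = fun x => (fderiv ℝ e x (ev j)) j := rfl
  rw [this]
  exact (EuclideanSpace.proj (𝕜 := ℝ) j : E3 →L[ℝ] ℝ).continuous.comp
    ((he.continuous_fderiv (by norm_num)).clm_apply continuous_const)

theorem Nx_cont {η : E3 → ℝ} (hη : ContDiff ℝ 1 η) {e φ : E3 → E3} (he : ContDiff ℝ 1 e)
    (hφ : ContDiff ℝ 1 φ) : Continuous (Nx η e φ) := by
  have c1 : Continuous η := hη.continuous
  have c2 : Continuous (fderiv ℝ η) := hη.continuous_fderiv (by norm_num)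
  have c3 : Continuous e := he.continuous
  have c4 : Continuous (fderiv ℝ e) := he.continuous_fderiv (by norm_num)
  have c5 : Continuous φ := hφ.continuous
  have c6 : Continuous (fderiv ℝ φ) := hφ.continuous_fderiv (by norm_num)
  have c7 : Continuous (dv e) := dv_cont1 he
  have c8 : Continuous fun x => ⟪e x, φ x⟫_ℝ := c3.inner c5
  have c9 : Continuous fun x => Pm (e x) := Pm_cont.comp c3
  have c10 : Continuous fun x => ip (φ x) := ip_cont.comp c5
  have c11 : Continuous fun x => ip (e x) := ip_cont.comp c3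
  unfold Nx
  refine Continuous.add (Continuous.sub (Continuous.sub (Continuous.sub (Continuous.sub
    (Continuous.sub (Continuous.add ?_ ?_) ?_) ?_) ?_) ?_) ?_) ?_
  · exact sr_cont c2 (c9.clm_apply c5)
  · exact c1.smul (c9.clm_comp c6)
  · exact c1.smul (sr_cont (c10.clm_comp c4) c3)
  · exact ((continuous_const.mul c1).mul c8).smul (c4.clm_comp c9)
  · exact c8.smul (sr_cont (c2.clm_comp c9) c3)
  · exact c1.smul (sr_cont (c10.clm_comp (c4.clm_comp c9)) c3)
  · exact c1.smul (sr_cont (c11.clm_comp (c6.clm_comp c9)) c3)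
  · exact ((c1.mul c8).mul c7).smul (sr_cont c11 c3)

theorem Lx_cont {η : E3 → ℝ} (hη : ContDiff ℝ 1 η) {e φ : E3 → E3} (he : ContDiff ℝ 1 e)
    (hφ : ContDiff ℝ 1 φ) : Continuous (Lx η e φ) := by
  have c1 : Continuous η := hη.continuous
  have c3 : Continuous e := he.continuous
  have c5 : Continuous φ := hφ.continuous
  have c8 : Continuous fun x => ⟪e x, φ x⟫_ℝ := c3.inner c5
  have c9 : Continuous fun x => Pm (e x) := Pm_cont.comp c3
  unfold Lx
  exact (c1.smul (tn.continuous.comp c5)).sub (((continuous_const.mul c1).mul c8).smul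
    ((tn.continuous.comp c3).clm_comp c9))

theorem off {φ : E3 → E3} {x : E3} (hx : x ∉ tsupport φ) : φ x = 0 ∧ fderiv ℝ φ x = 0 :=
  ⟨image_eq_zero_of_notMem_tsupport hx,
    image_eq_zero_of_notMem_tsupport fun h => hx (tsupport_fderiv_subset ℝ h)⟩

theorem Nx_comp {η : E3 → ℝ} {e φ : E3 → E3} (hc : HasCompactSupport φ) :
    HasCompactSupport (Nx η e φ) := by
  refine HasCompactSupport.intro hc fun x hx => ?_
  obtain ⟨h1, h2⟩ := off hx
  refine ContinuousLinearMap.ext fun a => ?_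
  unfold Nx
  simp [h1, h2, ip]

theorem Lx_comp {η : E3 → ℝ} {e φ : E3 → E3} (hc : HasCompactSupport φ) :
    HasCompactSupport (Lx η e φ) := by
  refine HasCompactSupport.intro hc fun x hx => ?_
  obtain ⟨h1, h2⟩ := off hx
  refine ContinuousLinearMap.ext fun a => ?_
  unfold Lx
  simp [h1]

/-- **The identity for all fields in the space.** -/
theorem graph_id {Ω' : Set E3} {φ : E3 → E3} (hφ : IsTest Ω' φ) {η : E3 → ℝ}
    (hη : ContDiff ℝ ∞ η) {e : E3 → E3} (he : ContDiff ℝ 1 e) {p : L2V Ω × L2M Ω}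
    (hp : p ∈ graphW Ω) :
    Integrable (fun x => EE η e φ x (p.1 x) (p.2 x)) (volume.restrict Ω) ∧
      ∫ x in Ω, EE η e φ x (p.1 x) (p.2 x) = 0 := by
  have cφ : ContDiff ℝ 1 φ := hφ.smooth.of_le (by exact_mod_cast le_top)
  have cη : ContDiff ℝ 1 η := hη.of_le (by exact_mod_cast le_top)
  obtain ⟨N, hN⟩ := exists_op Ω (Nx_cont cη he cφ) (Nx_comp hφ.compact)
  obtain ⟨L, hL⟩ := exists_op Ω (Lx_cont cη he cφ) (Lx_comp hφ.compact)
  have hI : ∀ q : L2V Ω × L2M Ω,
      Integrable (fun x => EE η e φ x (q.1 x) (q.2 x)) (volume.restrict Ω) ∧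
      ∫ x in Ω, EE η e φ x (q.1 x) (q.2 x) = ⟪N q.1, q.1⟫_ℝ + ⟪L q.1, q.2⟫_ℝ := by
    intro q
    have i1 := L2.integrable_inner (𝕜 := ℝ) (N q.1) q.1
    have i2 := L2.integrable_inner (𝕜 := ℝ) (L q.1) q.2
    have ee : (fun x => ⟪N q.1 x, q.1 x⟫_ℝ + ⟪L q.1 x, q.2 x⟫_ℝ) =ᵐ[volume.restrict Ω]
        fun x => EE η e φ x (q.1 x) (q.2 x) := by
      filter_upwards [hN q.1, hL q.1] with x a b
      rw [EE_eq, a, b]
    refine ⟨(i1.add i2).congr ee, ?_⟩
    rw [← integral_congr_ae ee, integral_add i1 i2, L2.inner_def, L2.inner_def]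
  refine ⟨(hI p).1, ?_⟩
  rw [(hI p).2]
  refine graphW_induction (Ω := Ω) (fun q => ⟪N q.1, q.1⟫_ℝ + ⟪L q.1, q.2⟫_ℝ) ?_ (fun r hr => ?_) hp
  · have : Continuous fun q : L2V Ω × L2M Ω => ⟪N q.1, q.1⟫_ℝ + ⟪L q.1, q.2⟫_ℝ := by fun_prop
    exact this.continuousOn
  · show ⟪N r.1, r.1⟫_ℝ + ⟪L r.1, r.2⟫_ℝ = 0
    rw [← (hI r).2]
    obtain ⟨ψ, h1, h2, h3⟩ := hr
    rw [← smooth_id h1 hφ hη he]
    refine Eq.trans ?_ (setIntegral_eq_integral_of_forall_compl_eq_zero (s := Ω) fun x hx => ?_)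
    · refine integral_congr_ae ?_
      filter_upwards [h2, h3] with x a b
      rw [a, b]
    · obtain ⟨h4, h5⟩ := off (φ := ψ) (x := x) fun h => hx (h1.supp h)
      have h6 : jac ψ x = 0 := by
        refine PiLp.ext fun r => ?_
        rw [jac_apply, h5]
        simp
      rw [h4, h6, EE_eq]
      simp

end Pool.Agent.E8helper68.UD
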