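import Pool.Agent.E8helper68.UD.UD2

/-!
The form bound for localized fields of the space, and the pointwise bound.
-/

set_option autoImplicit false

open MeasureTheory Set Filter Topology
open scoped InnerProductSpace ContDiff ENNReal

namespace Pool.Agent.E8helper68.UD

open H772R2.NS Pool.Agent.TH340.FF Pool.Agent.R462.HC Pool.Agent.R772.LI Pool.Agent.R772.LV

variable {Ω : Set E3}

theorem norm_sq_L2 {F : Type*} [NormedAddCommGroup F] [InnerProductSpace ℝ F] {μ : Measure E3}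
    (z : Lp F 2 μ) : ‖z‖ ^ 2 = ∫ x, ‖z x‖ ^ 2 ∂μ := by
  rw [← real_inner_self_eq_norm_sq, L2.inner_def]
  exact integral_congr_ae (Eventually.of_forall fun x => real_inner_self_eq_norm_sq _)

theorem sq_int {F : Type*} [NormedAddCommGroup F] {μ : Measure E3} (z : Lp F 2 μ) :
    Integrable (fun x => ‖z x‖ ^ 2) μ := (Lp.memLp z).norm.integrable_sq

/-- the operator for the weight `a²` -/
theorem exists_wt {F : Type*} [NormedAddCommGroup F] [InnerProductSpace ℝ F] (Ω : Set E3)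
    {a : E3 → ℝ} (ha : Continuous a) (hs : HasCompactSupport a) :
    ∃ T : Lp F 2 ((volume : Measure E3).restrict Ω) →L[ℝ] Lp F 2 (volume.restrict Ω),
      ∀ v, ‖T v‖ ^ 2 = ∫ x in Ω, a x ^ 2 * ‖v x‖ ^ 2 := by
  obtain ⟨T, hT⟩ := exists_op (F₁ := F) (F₂ := F) Ω
    (c := fun x => a x • ContinuousLinearMap.id ℝ F) (ha.smul continuous_const)
    (hs.smul_right)
  refine ⟨T, fun v => ?_⟩
  rw [norm_sq_L2]
  refine integral_congr_ae ?_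
  filter_upwards [hT v] with x hx
  rw [hx]
  show ‖a x • v x‖ ^ 2 = _
  rw [norm_smul, mul_pow, Real.norm_eq_abs, sq_abs]

/-- **The form bound for localized fields of the space.** -/
theorem ub {V : Set E3} {W : E3 → ℝ}
    (hW : FB (Ω ∩ V) W) {χ : E3 → ℝ} (hχ : ContDiff ℝ ∞ χ) (hc : HasCompactSupport χ)
    (hs : tsupport χ ⊆ V) {p : L2V Ω × L2M Ω} (hp : p ∈ graphW Ω) :
    ∫⁻ x in Ω ∩ V, ENNReal.ofReal (W x * (χ x ^ 2 * ‖p.1 x‖ ^ 2))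
      ≤ ENNReal.ofReal (2 * (∫ x in Ω, χ x ^ 2 * ‖p.2 x‖ ^ 2)
        + 2 * ∫ x in Ω, DD χ x * ‖p.1 x‖ ^ 2) := by
  obtain ⟨T1, hT1⟩ := exists_wt (F := M3) Ω hχ.continuous hc
  obtain ⟨T2, hT2⟩ := exists_wt (F := E3) Ω (a := fun x => ‖fderiv ℝ χ x‖)
    (hχ.continuous_fderiv (by simp)).norm (hc.fderiv (𝕜 := ℝ)).norm
  have hT2' : ∀ v : L2V Ω, ‖T2 v‖ ^ 2 = ∫ x in Ω, DD χ x * ‖v x‖ ^ 2 := hT2
  rw [← hT1, ← hT2']
  have cR : Continuous fun q : L2V Ω × L2M Ω => 2 * ‖T1 q.2‖ ^ 2 + 2 * ‖T2 q.1‖ ^ 2 := by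
    fun_prop
  have hpre : ∀ r ∈ preW Ω, ∫⁻ x in Ω ∩ V, ENNReal.ofReal (W x * (χ x ^ 2 * ‖r.1 x‖ ^ 2))
      ≤ ENNReal.ofReal (2 * ‖T1 r.2‖ ^ 2 + 2 * ‖T2 r.1‖ ^ 2) := by
    rintro r ⟨ψ, h1, h2, h3⟩
    have s1 : ContDiff ℝ ∞ fun x => χ x • ψ x := hχ.smul h1.smooth
    have s2 : HasCompactSupport fun x => χ x • ψ x :=
      HasCompactSupport.smul_left (f := χ) (f' := ψ) h1.compact
    have s3 : tsupport (fun x => χ x • ψ x) ⊆ Ω ∩ V := by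
      refine subset_inter ?_ ?_
      · exact (tsupport_smul_subset_right χ ψ).trans h1.supp
      · exact (tsupport_smul_subset_left χ ψ).trans hs
    have k1 := form_vec hW s1 s2 s3
    have e1 : ∫⁻ x in Ω ∩ V, ENNReal.ofReal (W x * (χ x ^ 2 * ‖r.1 x‖ ^ 2))
        = ∫⁻ x in Ω ∩ V, ENNReal.ofReal (W x * NN (fun x => χ x • ψ x) x) := by
      refine lintegral_congr_ae ?_
      have h2' := ae_mono (Measure.restrict_mono (inter_subset_left (s := Ω) (t := V)) le_rfl) h2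
      filter_upwards [h2'] with x hx
      rw [hx, NN_mul, NN_eq]
    rw [e1]
    refine k1.trans (ENNReal.ofReal_le_ofReal ?_)
    have iJ : Integrable fun x => χ x ^ 2 * JJ ψ x := iJJ h1 (hχ.continuous.pow 2)
    have iN : Integrable fun x => DD χ x * NN ψ x := iNN h1 (DD_cont hχ)
    have l1 : ∫ x, JJ (fun x => χ x • ψ x) x
        ≤ 2 * (∫ x, χ x ^ 2 * JJ ψ x) + 2 * ∫ x, DD χ x * NN ψ x := by
      rw [← integral_const_mul, ← integral_const_mul,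
        ← integral_add (iJ.const_mul 2) (iN.const_mul 2)]
      refine integral_mono (JJ_int' s1 s2) ((iJ.const_mul 2).add (iN.const_mul 2)) fun x => ?_
      refine (JJ_mul hχ h1.smooth one_pos x).trans (le_of_eq ?_)
      show (1 + 1) * (χ x ^ 2 * JJ ψ x) + (1 + 1 / 1) * (DD χ x * NN ψ x) = _
      ring
    have e2 : ‖T1 r.2‖ ^ 2 = ∫ x, χ x ^ 2 * JJ ψ x := by
      rw [hT1]
      refine Eq.trans ?_ (setIntegral_eq_integral_of_forall_compl_eq_zero (s := Ω) fun x hx => ?_)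
      · refine integral_congr_ae ?_
        filter_upwards [h3] with x b
        rw [b, JJ_eq]
      · have : jac ψ x = 0 :=
          image_eq_zero_of_notMem_tsupport fun h => hx (h1.supp (tsupport_jac_subset h))
        rw [JJ_eq, this]
        simp
    have e3 : ‖T2 r.1‖ ^ 2 = ∫ x, DD χ x * NN ψ x := by
      rw [hT2']
      refine Eq.trans ?_ (setIntegral_eq_integral_of_forall_compl_eq_zero (s := Ω) fun x hx => ?_)
      · refine integral_congr_ae ?_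
        filter_upwards [h2] with x b
        rw [b, NN_eq]
      · have : ψ x = 0 := image_eq_zero_of_notMem_tsupport fun h => hx (h1.supp h)
        rw [NN_eq, this]
        simp
    rw [e2, e3]
    exact l1
  have hp' : p ∈ closure (preW Ω : Set (L2V Ω × L2M Ω)) := by
    have := hp
    unfold graphW at this
    rwa [← SetLike.mem_coe, Submodule.topologicalClosure_coe] at this
  obtain ⟨q, hq, hlim⟩ := mem_closure_iff_seq_limit.mp hp'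
  have h1 : Tendsto (fun n => (q n).1) atTop (𝓝 p.1) := (continuous_fst.tendsto p).comp hlim
  have hmeas : TendstoInMeasure (volume.restrict Ω) (fun n => ((q n).1 : E3 → E3)) atTop p.1 :=
    tendstoInMeasure_of_tendsto_Lp h1
  obtain ⟨ns, hns, hae⟩ := hmeas.exists_seq_tendsto_ae
  have hns' := hns.tendsto_atTop
  have hae' := ae_mono (Measure.restrict_mono (inter_subset_left (s := Ω) (t := V)) le_rfl) hae
  calc ∫⁻ x in Ω ∩ V, ENNReal.ofReal (W x * (χ x ^ 2 * ‖p.1 x‖ ^ 2))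
      ≤ ∫⁻ x in Ω ∩ V, liminf (fun n => ENNReal.ofReal
          (W x * (χ x ^ 2 * ‖(q (ns n)).1 x‖ ^ 2))) atTop := by
        refine lintegral_mono_ae ?_
        filter_upwards [hae'] with x hx
        have h2 : Tendsto (fun n => ENNReal.ofReal (W x * (χ x ^ 2 * ‖(q (ns n)).1 x‖ ^ 2))) atTop
            (𝓝 (ENNReal.ofReal (W x * (χ x ^ 2 * ‖p.1 x‖ ^ 2)))) := by
          refine (ENNReal.continuous_ofReal.tendsto _).comp ?_
          exact ((hx.norm.pow 2).const_mul _).const_mul _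
        exact h2.liminf_eq.ge
    _ ≤ liminf (fun n => ∫⁻ x in Ω ∩ V, ENNReal.ofReal
          (W x * (χ x ^ 2 * ‖(q (ns n)).1 x‖ ^ 2))) atTop := by
        refine lintegral_liminf_le' fun n => ?_
        have m1 : AEStronglyMeasurable ((q (ns n)).1 : E3 → E3) (volume.restrict (Ω ∩ V)) :=
          (Lp.aestronglyMeasurable _).mono_measure
            (Measure.restrict_mono inter_subset_left le_rfl)
        have m2 : AEMeasurable (fun x => χ x ^ 2 * ‖(q (ns n)).1 x‖ ^ 2)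
            (volume.restrict (Ω ∩ V)) :=
          ((hχ.continuous.pow 2).measurable.aemeasurable).mul (m1.norm.aemeasurable.pow_const 2)
        exact (hW.meas.mul m2).ennreal_ofReal
    _ ≤ liminf (fun n => ENNReal.ofReal (2 * ‖T1 (q (ns n)).2‖ ^ 2 + 2 * ‖T2 (q (ns n)).1‖ ^ 2))
          atTop := liminf_le_liminf (Eventually.of_forall fun n => hpre _ (hq _))
    _ = ENNReal.ofReal (2 * ‖T1 p.2‖ ^ 2 + 2 * ‖T2 p.1‖ ^ 2) := by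
        refine Tendsto.liminf_eq ?_
        exact (ENNReal.continuous_ofReal.tendsto _).comp
          ((cR.tendsto p).comp (hlim.comp hns'))

/-! ### pointwise bounds -/

theorem norm_mv (A : M3) (v : E3) : ‖mv A v‖ ≤ ‖A‖ * ‖v‖ := by
  have h : ‖mv A v‖ ^ 2 ≤ (‖A‖ * ‖v‖) ^ 2 := by
    rw [norm_sq_E3, mul_pow, norm_sq_M3, Finset.sum_mul]
    refine Finset.sum_le_sum fun i _ => ?_
    rw [mv_apply, norm_sq_E3]
    exact Finset.sum_mul_sq_le_sq_mul_sq _ _ _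
  exact (sq_le_sq₀ (norm_nonneg _) (by positivity)).1 h

theorem norm_ev (j : Fin 3) : ‖ev j‖ = 1 := by
  simp [ev]

theorem abs_coord (v : E3) (j : Fin 3) : |v j| ≤ ‖v‖ := by
  have := PiLp.norm_apply_le v j
  rwa [Real.norm_eq_abs] at this

theorem abs_dv (e : E3 → E3) (x : E3) : |dv e x| ≤ 3 * ‖fderiv ℝ e x‖ := by
  unfold dv
  refine (Finset.abs_sum_le_sum_abs _ _).trans ?_
  have h : ∀ j ∈ Finset.univ, |jac e x (j, j)| ≤ ‖fderiv ℝ e x‖ := by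
    intro j _
    rw [jac_apply]
    refine (abs_coord _ j).trans ?_
    refine ((fderiv ℝ e x).le_opNorm _).trans ?_
    rw [norm_ev, mul_one]
  refine (Finset.sum_le_sum h).trans ?_
  simp

theorem norm_Pm {a v : E3} (ha : ‖a‖ ≤ 1) : ‖v - ⟪a, v⟫_ℝ • a‖ ≤ ‖v‖ := by
  have h : ‖v - ⟪a, v⟫_ℝ • a‖ ^ 2 ≤ ‖v‖ ^ 2 := by
    rw [@norm_sub_sq_real, inner_smul_right, norm_smul, mul_pow, Real.norm_eq_abs, sq_abs,
      real_inner_comm a v]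
    have h1 : ‖a‖ ^ 2 ≤ 1 := pow_le_one₀ (norm_nonneg _) ha
    have h2 : 0 ≤ ⟪a, v⟫_ℝ ^ 2 := sq_nonneg _
    nlinarith
  exact (sq_le_sq₀ (norm_nonneg _) (norm_nonneg _)).1 h

theorem fderiv_sq {χ : E3 → ℝ} (hχ : ContDiff ℝ ∞ χ) (x y : E3) :
    fderiv ℝ (fun x => χ x ^ 2) x y = 2 * χ x * fderiv ℝ χ x y := by
  have h1 : DifferentiableAt ℝ χ x := (hχ.differentiable (by simp)) x
  rw [fderiv_fun_pow 2 h1]
  simp

/-- the pointwise bound -/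
theorem pt {χ : E3 → ℝ} (hχ : ContDiff ℝ ∞ χ) {e φ : E3 → E3} {x : E3} {Λ : ℝ}
    (h1 : ‖e x‖ ≤ 1) (h2 : ‖fderiv ℝ e x‖ ≤ Λ) (a : E3) (A : M3) :
    EE (fun x => χ x ^ 2) e φ x a A - χ x ^ 2 * ⟪φ x, mv A a⟫_ℝ
      ≤ (2 * (DD χ x * ‖a‖ ^ 2) + χ x ^ 2 * JJ φ x + χ x ^ 2 * ‖A‖ ^ 2
          + 7 * Λ * (χ x ^ 2 * (‖a‖ ^ 2 * ‖φ x‖)))
        + ‖a - ⟪e x, a⟫_ℝ • e x‖ ^ 2 * (3 * (χ x ^ 2 * NN φ x) + χ x ^ 2 * ‖a‖ ^ 2) := by
  have hΛ : 0 ≤ Λ := (norm_nonneg _).trans h2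
  have na := norm_nonneg a
  have nφ := norm_nonneg (φ x)
  have nA := norm_nonneg A
  have nH := norm_nonneg (fderiv ℝ χ x)
  have nF := norm_nonneg (fderiv ℝ φ x)
  have ple : |⟪e x, φ x⟫_ℝ| ≤ ‖φ x‖ := by
    refine (abs_real_inner_le_norm _ _).trans ?_
    calc ‖e x‖ * ‖φ x‖ ≤ 1 * ‖φ x‖ := by gcongr
      _ = ‖φ x‖ := one_mul _
  have Hle : ∀ y, |fderiv ℝ χ x y| ≤ ‖fderiv ℝ χ x‖ * ‖y‖ := fun y => by
    rw [← Real.norm_eq_abs]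
    exact (fderiv ℝ χ x).le_opNorm y
  have Dle : ∀ y, ‖fderiv ℝ e x y‖ ≤ Λ * ‖y‖ := fun y =>
    ((fderiv ℝ e x).le_opNorm y).trans (by gcongr)
  have Fle : ∀ y, ‖fderiv ℝ φ x y‖ ≤ ‖fderiv ℝ φ x‖ * ‖y‖ := fun y =>
    (fderiv ℝ φ x).le_opNorm y
  have dvle : |dv e x| ≤ 3 * Λ := (abs_dv e x).trans (by gcongr)
  have sle : |⟪e x, a⟫_ℝ| ≤ ‖a‖ := by
    refine (abs_real_inner_le_norm _ _).trans ?_
    calc ‖e x‖ * ‖a‖ ≤ 1 * ‖a‖ := by gcongr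
      _ = ‖a‖ := one_mul _
  have hJ : ‖fderiv ℝ φ x‖ ^ 2 ≤ JJ φ x := by
    rw [JJ_eq]
    have := norm_fderiv_le_jac (φ := φ) x
    gcongr
  have key : ∀ (c s : ℝ) (w : E3), ‖w‖ ≤ ‖a‖ → |s| ≤ ‖a‖ →
      c ^ 2 * ⟪φ x, mv A a⟫_ℝ + 2 * c * fderiv ℝ χ x a * ⟪φ x, w⟫_ℝ
        + c ^ 2 * ⟪fderiv ℝ φ x a, w⟫_ℝ
        - c ^ 2 * s * ⟪φ x, fderiv ℝ e x a⟫_ℝ
        - 2 * c ^ 2 * ⟪e x, φ x⟫_ℝ * (⟪a, fderiv ℝ e x w⟫_ℝ + ⟪e x, mv A w⟫_ℝ)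
        - 2 * c * fderiv ℝ χ x w * s * ⟪e x, φ x⟫_ℝ
        - c ^ 2 * s * ⟪φ x, fderiv ℝ e x w⟫_ℝ
        - c ^ 2 * s * ⟪e x, fderiv ℝ φ x w⟫_ℝ
        + c ^ 2 * s ^ 2 * ⟪e x, φ x⟫_ℝ * dv e x - c ^ 2 * ⟪φ x, mv A a⟫_ℝ
        ≤ (2 * (‖fderiv ℝ χ x‖ ^ 2 * ‖a‖ ^ 2) + c ^ 2 * JJ φ x + c ^ 2 * ‖A‖ ^ 2
            + 7 * Λ * (c ^ 2 * (‖a‖ ^ 2 * ‖φ x‖)))
          + ‖w‖ ^ 2 * (3 * (c ^ 2 * ‖φ x‖ ^ 2) + c ^ 2 * ‖a‖ ^ 2) := by
    intro c s w wle sle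
    have nw := norm_nonneg w
    -- the terms
    have t2 : fderiv ℝ χ x a * ⟪φ x, w⟫_ℝ * (2 * c)
        ≤ 2 * |c| * ‖fderiv ℝ χ x‖ * ‖a‖ * ‖φ x‖ * ‖w‖ := by
      refine (le_abs_self _).trans ?_
      rw [abs_mul, abs_mul, abs_mul, abs_two]
      calc |fderiv ℝ χ x a| * |⟪φ x, w⟫_ℝ| * (2 * |c|)
          ≤ (‖fderiv ℝ χ x‖ * ‖a‖) * (‖φ x‖ * ‖w‖) * (2 * |c|) := by
            gcongr
            · exact Hle a
            · exact abs_real_inner_le_norm _ _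
        _ = _ := by ring
    have t3 : c ^ 2 * ⟪fderiv ℝ φ x a, w⟫_ℝ ≤ c ^ 2 * (‖fderiv ℝ φ x‖ * ‖a‖ * ‖w‖) := by
      refine mul_le_mul_of_nonneg_left ?_ (sq_nonneg _)
      refine (real_inner_le_norm _ _).trans ?_
      gcongr
      exact Fle a
    have t4 : -(c ^ 2 * s * ⟪φ x, fderiv ℝ e x a⟫_ℝ) ≤ c ^ 2 * (Λ * (‖a‖ ^ 2 * ‖φ x‖)) := by
      refine (neg_le_abs _).trans ?_
      rw [abs_mul, abs_mul, abs_of_nonneg (sq_nonneg c), mul_assoc]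
      refine mul_le_mul_of_nonneg_left ?_ (sq_nonneg _)
      calc |s| * |⟪φ x, fderiv ℝ e x a⟫_ℝ| ≤ ‖a‖ * (‖φ x‖ * (Λ * ‖a‖)) := by
            gcongr
            refine (abs_real_inner_le_norm _ _).trans ?_
            gcongr
            exact Dle a
        _ = _ := by ring
    have t5 : -(c ^ 2 * ⟪e x, φ x⟫_ℝ * ⟪a, fderiv ℝ e x w⟫_ℝ) ≤ c ^ 2 * (Λ * (‖a‖ ^ 2 * ‖φ x‖)) := by
      refine (neg_le_abs _).trans ?_
      rw [abs_mul, abs_mul, abs_of_nonneg (sq_nonneg c), mul_assoc]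
      refine mul_le_mul_of_nonneg_left ?_ (sq_nonneg _)
      calc |⟪e x, φ x⟫_ℝ| * |⟪a, fderiv ℝ e x w⟫_ℝ| ≤ ‖φ x‖ * (‖a‖ * (Λ * ‖a‖)) := by
            gcongr
            refine (abs_real_inner_le_norm _ _).trans ?_
            gcongr
            exact (Dle w).trans (by gcongr)
        _ = _ := by ring
    have t6 : -(c ^ 2 * ⟪e x, φ x⟫_ℝ * ⟪e x, mv A w⟫_ℝ) ≤ c ^ 2 * (‖φ x‖ * (‖A‖ * ‖w‖)) := by
      refine (neg_le_abs _).trans ?_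
      rw [abs_mul, abs_mul, abs_of_nonneg (sq_nonneg c), mul_assoc]
      refine mul_le_mul_of_nonneg_left ?_ (sq_nonneg _)
      gcongr
      refine (abs_real_inner_le_norm _ _).trans ?_
      calc ‖e x‖ * ‖mv A w‖ ≤ 1 * (‖A‖ * ‖w‖) := by
            gcongr
            exact norm_mv A w
        _ = _ := one_mul _
    have t7 : -(fderiv ℝ χ x w * s * ⟪e x, φ x⟫_ℝ * (2 * c))
        ≤ 2 * |c| * ‖fderiv ℝ χ x‖ * ‖a‖ * ‖φ x‖ * ‖w‖ := by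
      refine (neg_le_abs _).trans ?_
      rw [abs_mul, abs_mul, abs_mul, abs_mul, abs_two]
      calc |fderiv ℝ χ x w| * |s| * |⟪e x, φ x⟫_ℝ| * (2 * |c|)
          ≤ (‖fderiv ℝ χ x‖ * ‖w‖) * ‖a‖ * ‖φ x‖ * (2 * |c|) := by
            gcongr
            exact Hle w
        _ = _ := by ring
    have t8 : -(c ^ 2 * s * ⟪φ x, fderiv ℝ e x w⟫_ℝ) ≤ c ^ 2 * (Λ * (‖a‖ ^ 2 * ‖φ x‖)) := by
      refine (neg_le_abs _).trans ?_
      rw [abs_mul, abs_mul, abs_of_nonneg (sq_nonneg c), mul_assoc]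
      refine mul_le_mul_of_nonneg_left ?_ (sq_nonneg _)
      calc |s| * |⟪φ x, fderiv ℝ e x w⟫_ℝ| ≤ ‖a‖ * (‖φ x‖ * (Λ * ‖a‖)) := by
            gcongr
            refine (abs_real_inner_le_norm _ _).trans ?_
            gcongr
            exact (Dle w).trans (by gcongr)
        _ = _ := by ring
    have t9 : -(c ^ 2 * s * ⟪e x, fderiv ℝ φ x w⟫_ℝ) ≤ c ^ 2 * (‖fderiv ℝ φ x‖ * ‖a‖ * ‖w‖) := by
      refine (neg_le_abs _).trans ?_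
      rw [abs_mul, abs_mul, abs_of_nonneg (sq_nonneg c), mul_assoc]
      refine mul_le_mul_of_nonneg_left ?_ (sq_nonneg _)
      calc |s| * |⟪e x, fderiv ℝ φ x w⟫_ℝ| ≤ ‖a‖ * (1 * (‖fderiv ℝ φ x‖ * ‖w‖)) := by
            gcongr
            refine (abs_real_inner_le_norm _ _).trans ?_
            gcongr
            exact Fle w
        _ = _ := by ring
    have t10 : c ^ 2 * s ^ 2 * ⟪e x, φ x⟫_ℝ * dv e x ≤ 3 * (c ^ 2 * (Λ * (‖a‖ ^ 2 * ‖φ x‖))) := by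
      refine (le_abs_self _).trans ?_
      rw [abs_mul, abs_mul, abs_mul, abs_of_nonneg (sq_nonneg c), abs_of_nonneg (sq_nonneg s)]
      have hs2 : s ^ 2 ≤ ‖a‖ ^ 2 := by
        rw [← sq_abs s]
        gcongr
      calc c ^ 2 * s ^ 2 * |⟪e x, φ x⟫_ℝ| * |dv e x| ≤ c ^ 2 * ‖a‖ ^ 2 * ‖φ x‖ * (3 * Λ) := by
            gcongr
        _ = _ := by ring
    have hc2 : |c| ^ 2 = c ^ 2 := sq_abs c
    have y1 : 4 * |c| * ‖fderiv ℝ χ x‖ * ‖a‖ * ‖φ x‖ * ‖w‖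
        ≤ 2 * (|c| ^ 2 * ‖w‖ ^ 2 * ‖φ x‖ ^ 2) + 2 * (‖fderiv ℝ χ x‖ ^ 2 * ‖a‖ ^ 2) := by
      linarith only [sq_nonneg (|c| * ‖w‖ * ‖φ x‖ - ‖fderiv ℝ χ x‖ * ‖a‖)]
    rw [hc2] at y1
    have y2 : 2 * (c ^ 2 * (‖fderiv ℝ φ x‖ * ‖a‖ * ‖w‖))
        ≤ c ^ 2 * ‖fderiv ℝ φ x‖ ^ 2 + c ^ 2 * (‖w‖ ^ 2 * ‖a‖ ^ 2) := by
      linarith only [mul_nonneg (sq_nonneg c) (sq_nonneg (‖fderiv ℝ φ x‖ - ‖w‖ * ‖a‖))]
    have y3 : 2 * (c ^ 2 * (‖φ x‖ * (‖A‖ * ‖w‖)))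
        ≤ c ^ 2 * ‖A‖ ^ 2 + c ^ 2 * (‖w‖ ^ 2 * ‖φ x‖ ^ 2) := by
      linarith only [mul_nonneg (sq_nonneg c) (sq_nonneg (‖A‖ - ‖w‖ * ‖φ x‖))]
    have y4 : c ^ 2 * ‖fderiv ℝ φ x‖ ^ 2 ≤ c ^ 2 * JJ φ x := by gcongr
    linarith only [t2, t3, t4, t5, t6, t7, t8, t9, t10, y1, y2, y3, y4]
  unfold EE
  simp only [fderiv_sq hχ]
  rw [NN_eq, show DD χ x = ‖fderiv ℝ χ x‖ ^ 2 from rfl]
  exact key (χ x) ⟪e x, a⟫_ℝ (a - ⟪e x, a⟫_ℝ • e x) (norm_Pm h1) sle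

end Pool.Agent.E8helper68.UD
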