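import Pool.Agent.E8helper68.UD.UD3

/-!
The bound for one translate of the cutoff function.
-/

set_option autoImplicit false

open MeasureTheory Set Filter Topology
open scoped InnerProductSpace ContDiff ENNReal

namespace Pool.Agent.E8helper68.UD

open H772R2.NS Pool.Agent.TH340.FF Pool.Agent.R462.HC Pool.Agent.R772.LI Pool.Agent.R772.LV

variable {Ω : Set E3}

/-- the convective term -/
noncomputable def TT (p : L2V Ω × L2M Ω) (φ : E3 → E3) (x : E3) : ℝ :=
  ⟪φ x, mv (p.2 x) (p.1 x)⟫_ℝ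

theorem TT_int {Ω' : Set E3} {φ : E3 → E3} (hφ : IsTest Ω' φ) {f : E3 → ℝ} (hf : Continuous f)
    (p : L2V Ω × L2M Ω) : Integrable (fun x => f x * TT p φ x) (volume.restrict Ω) := by
  have hc : Continuous fun x => tn (f x • φ x) := tn.continuous.comp (hf.smul hφ.smooth.continuous)
  have hs : HasCompactSupport fun x => tn (f x • φ x) :=
    hφ.compact.mono fun x hx h0 => hx (by simp [h0])
  obtain ⟨L, hL⟩ := exists_op Ω hc hs
  refine (L2.integrable_inner (𝕜 := ℝ) (L p.1) p.2).congr ?_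
  filter_upwards [hL p.1] with x a
  rw [a, inner_tn, real_inner_smul_left]
  rfl

theorem bdd_int {f g : E3 → ℝ} {μ : Measure E3} (hf : Continuous f) (hs : HasCompactSupport f)
    (hg : Integrable g μ) : Integrable (fun x => f x * g x) μ := by
  obtain ⟨C, hC⟩ := hs.exists_bound_of_continuous hf
  exact hg.bdd_mul (c := C) hf.aestronglyMeasurable (Eventually.of_forall hC)

theorem UN_int {Ω' : Set E3} {φ : E3 → E3} (hφ : IsTest Ω' φ) {f : E3 → ℝ} (hf : Continuous f)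
    (v : L2V Ω) :
    Integrable (fun x => f x * (‖v x‖ ^ 2 * ‖φ x‖)) (volume.restrict Ω) := by
  have h1 := bdd_int (f := fun x => f x * ‖φ x‖) (hf.mul hφ.smooth.continuous.norm)
    (hφ.compact.norm.mul_left) (sq_int v)
  refine h1.congr (Eventually.of_forall fun x => ?_)
  show f x * ‖φ x‖ * ‖v x‖ ^ 2 = f x * (‖v x‖ ^ 2 * ‖φ x‖)
  ring

/-- **The bound for one cutoff function.** -/
theorem tr (hΩ : MeasurableSet Ω) {V : Set E3} {κ β Λ : ℝ} (hκ : 0 ≤ κ) (hβ : 0 ≤ β)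
    (hΛ : 0 ≤ Λ) {p : L2V Ω × L2M Ω} (hp : p ∈ graphW Ω) {e : E3 → E3} (he : ContDiff ℝ 1 e)
    (he1 : ∀ x ∈ V, ‖e x‖ ≤ 1 ∧ ‖fderiv ℝ e x‖ ≤ Λ) {W : E3 → ℝ} (hW : FB (Ω ∩ V) W)
    (hw : ∀ᵐ x ∂(volume.restrict (Ω ∩ V)), ‖p.1 x - ⟪e x, p.1 x⟫_ℝ • e x‖ ^ 2 ≤ κ * W x + β)
    {φ : E3 → E3} (hφ : IsTest Ω φ) {χ : E3 → ℝ} (hχ : ContDiff ℝ ∞ χ) (hχc : HasCompactSupport χ)
    (hχV : tsupport χ ⊆ V) (hV : MeasurableSet V) :
    -∫ x in Ω, χ x ^ 2 * TT p φ x
      ≤ (1 + 2 * κ) * (∫ x in Ω, χ x ^ 2 * ‖p.2 x‖ ^ 2)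
        + (1 + 6 * κ) * (∫ x, χ x ^ 2 * JJ φ x)
        + (2 + 2 * κ) * (∫ x in Ω, DD χ x * ‖p.1 x‖ ^ 2)
        + 6 * κ * (∫ x, DD χ x * NN φ x)
        + β * (∫ x in Ω, χ x ^ 2 * ‖p.1 x‖ ^ 2)
        + 3 * β * (∫ x, χ x ^ 2 * NN φ x)
        + 7 * Λ * ∫ x in Ω, χ x ^ 2 * (‖p.1 x‖ ^ 2 * ‖φ x‖) := by
  have cχ2 : Continuous fun x => χ x ^ 2 := hχ.continuous.pow 2
  have sχ2 : HasCompactSupport fun x => χ x ^ 2 :=
    hχc.comp_left (g := fun t : ℝ => t ^ 2) (by simp)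
  have cD : Continuous (DD χ) := DD_cont hχ
  have sD : HasCompactSupport (DD χ) :=
    (hχc.fderiv (𝕜 := ℝ)).comp_left (g := fun L : E3 →L[ℝ] ℝ => ‖L‖ ^ 2) (by simp)
  obtain ⟨iE, hE⟩ := graph_id hφ (hχ.pow 2) he hp
  have iT : Integrable (fun x => χ x ^ 2 * TT p φ x) (volume.restrict Ω) := TT_int hφ cχ2 p
  -- the integrals of the nonnegative terms
  have a1 : Integrable (fun x => χ x ^ 2 * ‖p.2 x‖ ^ 2) (volume.restrict Ω) :=
    bdd_int cχ2 sχ2 (sq_int p.2)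
  have a2 : Integrable (fun x => DD χ x * ‖p.1 x‖ ^ 2) (volume.restrict Ω) :=
    bdd_int cD sD (sq_int p.1)
  have a3 : Integrable (fun x => χ x ^ 2 * ‖p.1 x‖ ^ 2) (volume.restrict Ω) :=
    bdd_int cχ2 sχ2 (sq_int p.1)
  have a4 : Integrable (fun x => χ x ^ 2 * (‖p.1 x‖ ^ 2 * ‖φ x‖)) (volume.restrict Ω) :=
    UN_int hφ cχ2 p.1
  have a5 : Integrable (fun x => χ x ^ 2 * JJ φ x) := iJJ hφ cχ2
  have a6 : Integrable (fun x => χ x ^ 2 * NN φ x) := iNN hφ cχ2
  have a7 : Integrable (fun x => DD χ x * NN φ x) := iNN hφ cD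
  have hJ := JJ_nonneg φ
  have hN := NN_nonneg φ
  have hD := DD_nonneg χ
  set R : E3 → ℝ := fun x => 2 * (DD χ x * ‖p.1 x‖ ^ 2) + χ x ^ 2 * JJ φ x
    + χ x ^ 2 * ‖p.2 x‖ ^ 2 + 7 * Λ * (χ x ^ 2 * (‖p.1 x‖ ^ 2 * ‖φ x‖))
    + β * (χ x ^ 2 * ‖p.1 x‖ ^ 2) + 3 * β * (χ x ^ 2 * NN φ x) with hR
  have R0 : ∀ x, 0 ≤ R x := fun x => by
    have h1 := hJ x
    have h2 := hN x
    have h3 := hD x
    simp only [hR]
    positivity
  have iR : Integrable R (volume.restrict Ω) :=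
    (((((a2.const_mul 2).add a5.restrict).add a1).add (a4.const_mul (7 * Λ))).add
      (a3.const_mul β)).add (a6.restrict.const_mul (3 * β))
  have eR : ∫ x in Ω, R x = 2 * (∫ x in Ω, DD χ x * ‖p.1 x‖ ^ 2) + (∫ x in Ω, χ x ^ 2 * JJ φ x)
      + (∫ x in Ω, χ x ^ 2 * ‖p.2 x‖ ^ 2)
      + 7 * Λ * (∫ x in Ω, χ x ^ 2 * (‖p.1 x‖ ^ 2 * ‖φ x‖))
      + β * (∫ x in Ω, χ x ^ 2 * ‖p.1 x‖ ^ 2) + 3 * β * (∫ x in Ω, χ x ^ 2 * NN φ x) := by
    have b1 := a2.const_mul 2
    have b2 := b1.add a5.restrict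
    have b3 := b2.add a1
    have b4 := b3.add (a4.const_mul (7 * Λ))
    have b5 := b4.add (a3.const_mul β)
    have c1 := integral_add b5 (a6.restrict.const_mul (3 * β))
    have c2 := integral_add b4 (a3.const_mul β)
    have c3 := integral_add b3 (a4.const_mul (7 * Λ))
    have c4 := integral_add b2 a1
    have c5 := integral_add b1 a5.restrict
    rw [integral_const_mul] at c1 c2 c3 c5
    refine c1.trans ?_
    congr 1
    refine c2.trans ?_
    congr 1
    refine c3.trans ?_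
    congr 1
    refine c4.trans ?_
    congr 1
  have eJ : ∫ x in Ω, χ x ^ 2 * JJ φ x = ∫ x, χ x ^ 2 * JJ φ x := by
    refine setIntegral_eq_integral_of_forall_compl_eq_zero (s := Ω) fun x hx => ?_
    have : jac φ x = 0 :=
      image_eq_zero_of_notMem_tsupport fun h => hx (hφ.supp (tsupport_jac_subset h))
    rw [JJ_eq, this]
    simp
  have eN : ∫ x in Ω, χ x ^ 2 * NN φ x = ∫ x, χ x ^ 2 * NN φ x := by
    refine setIntegral_eq_integral_of_forall_compl_eq_zero (s := Ω) fun x hx => ?_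
    have : φ x = 0 := image_eq_zero_of_notMem_tsupport fun h => hx (hφ.supp h)
    rw [NN_eq, this]
    simp
  -- the localized test field
  set Φ : E3 → E3 := fun x => χ x • φ x with hΦ
  have s1 : ContDiff ℝ ∞ Φ := hχ.smul hφ.smooth
  have s2 : HasCompactSupport Φ := HasCompactSupport.smul_left (f := χ) (f' := φ) hφ.compact
  have s3 : tsupport Φ ⊆ Ω ∩ V := by
    refine subset_inter ?_ ?_
    · exact (tsupport_smul_subset_right χ φ).trans hφ.supp
    · exact (tsupport_smul_subset_left χ φ).trans hχV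
  have l1 : ∫ x, JJ Φ x ≤ 2 * (∫ x, χ x ^ 2 * JJ φ x) + 2 * ∫ x, DD χ x * NN φ x := by
    rw [← integral_const_mul, ← integral_const_mul,
      ← integral_add (a5.const_mul 2) (a7.const_mul 2)]
    refine integral_mono (JJ_int' s1 s2) ((a5.const_mul 2).add (a7.const_mul 2)) fun x => ?_
    refine (JJ_mul hχ hφ.smooth one_pos x).trans (le_of_eq ?_)
    show (1 + 1) * (χ x ^ 2 * JJ φ x) + (1 + 1 / 1) * (DD χ x * NN φ x) = _
    ring
  have f1' := form_vec hW s1 s2 s3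
  have f2' := ub hW hχ hχc hχV hp
  set f : E3 → ℝ := fun x => EE (fun x => χ x ^ 2) e φ x (p.1 x) (p.2 x) - χ x ^ 2 * TT p φ x
    with hf
  have e1 : -∫ x in Ω, χ x ^ 2 * TT p φ x = ∫ x in Ω ∩ V, f x := by
    have h1 : ∫ x in Ω, f x = -∫ x in Ω, χ x ^ 2 * TT p φ x := by
      rw [hf, integral_sub iE iT, hE, zero_sub]
    rw [← h1]
    refine setIntegral_eq_of_subset_of_forall_sdiff_eq_zero hΩ inter_subset_left fun x hx => ?_
    have hxV : x ∉ V := fun h => hx.2 ⟨hx.1, h⟩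
    have h2 : χ x = 0 := image_eq_zero_of_notMem_tsupport fun h => hxV (hχV h)
    have h3 : fderiv ℝ (fun x => χ x ^ 2) x = 0 := by
      refine ContinuousLinearMap.ext fun y => ?_
      rw [fderiv_sq hχ, h2]
      simp
    simp only [hf]
    unfold EE
    rw [h3]
    simp [h2]
  rw [e1]
  have J0 : 0 ≤ ∫ x, JJ Φ x := integral_nonneg (JJ_nonneg Φ)
  have D0 : 0 ≤ ∫ x in Ω, DD χ x * ‖p.1 x‖ ^ 2 :=
    integral_nonneg fun x => mul_nonneg (hD x) (sq_nonneg _)
  have A0 : 0 ≤ ∫ x in Ω, χ x ^ 2 * ‖p.2 x‖ ^ 2 :=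
    integral_nonneg fun x => mul_nonneg (sq_nonneg _) (sq_nonneg _)
  have RR0 : 0 ≤ ∫ x in Ω, R x := integral_nonneg R0
  have key : ∫⁻ x in Ω ∩ V, ENNReal.ofReal (f x)
      ≤ ENNReal.ofReal ((∫ x in Ω, R x) + 3 * κ * (∫ x, JJ Φ x)
        + κ * (2 * (∫ x in Ω, χ x ^ 2 * ‖p.2 x‖ ^ 2)
        + 2 * ∫ x in Ω, DD χ x * ‖p.1 x‖ ^ 2)) := by
    have hmono := Measure.restrict_mono (inter_subset_left (s := Ω) (t := V))
      (le_refl (volume : Measure E3))
    have mR : AEMeasurable (fun x => ENNReal.ofReal (R x)) (volume.restrict (Ω ∩ V)) :=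
      (iR.mono_measure hmono).aestronglyMeasurable.aemeasurable.ennreal_ofReal
    have mN : AEMeasurable (fun x => ENNReal.ofReal (3 * κ * (W x * NN Φ x)))
        (volume.restrict (Ω ∩ V)) :=
      ((hW.meas.mul (NN_cont s1).measurable.aemeasurable).const_mul (3 * κ)).ennreal_ofReal
    calc ∫⁻ x in Ω ∩ V, ENNReal.ofReal (f x)
        ≤ ∫⁻ x in Ω ∩ V, (ENNReal.ofReal (R x) + (ENNReal.ofReal (3 * κ * (W x * NN Φ x))
            + ENNReal.ofReal (κ * (W x * (χ x ^ 2 * ‖p.1 x‖ ^ 2))))) := by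
          refine lintegral_mono_ae ?_
          have hmem : ∀ᵐ x ∂(volume.restrict (Ω ∩ V)), x ∈ V := by
            have h1 : (volume : Measure E3).restrict (Ω ∩ V) ≤ volume.restrict V :=
              Measure.restrict_mono inter_subset_right le_rfl
            exact ae_mono h1 (ae_restrict_mem hV)
          filter_upwards [hw, hmem] with x hx hxV
          have hWx := hW.nonneg x
          have n1 : 0 ≤ W x * NN Φ x := mul_nonneg hWx (NN_nonneg Φ x)
          have n2 : 0 ≤ W x * (χ x ^ 2 * ‖p.1 x‖ ^ 2) := by positivity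
          rw [← ENNReal.ofReal_add (by positivity) (by positivity),
            ← ENNReal.ofReal_add (R0 x) (by positivity)]
          refine ENNReal.ofReal_le_ofReal ?_
          have h1 := pt hχ (e := e) (φ := φ) (x := x) (he1 x hxV).1 (he1 x hxV).2 (p.1 x) (p.2 x)
          have h2 : 0 ≤ 3 * (χ x ^ 2 * NN φ x) + χ x ^ 2 * ‖p.1 x‖ ^ 2 := by
            have := hN x
            positivity
          have h3 := mul_le_mul_of_nonneg_right hx h2
          have h4 : NN Φ x = χ x ^ 2 * NN φ x := NN_mul χ φ x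
          rw [h4]
          refine h1.trans ?_
          simp only [hR]
          linarith only [h3]
      _ = (∫⁻ x in Ω ∩ V, ENNReal.ofReal (R x))
            + ((∫⁻ x in Ω ∩ V, ENNReal.ofReal (3 * κ * (W x * NN Φ x)))
            + ∫⁻ x in Ω ∩ V, ENNReal.ofReal (κ * (W x * (χ x ^ 2 * ‖p.1 x‖ ^ 2)))) := by
          rw [lintegral_add_left' mR, lintegral_add_left' mN]
      _ ≤ ENNReal.ofReal (∫ x in Ω, R x) + (ENNReal.ofReal (3 * κ * ∫ x, JJ Φ x)
            + ENNReal.ofReal (κ * (2 * (∫ x in Ω, χ x ^ 2 * ‖p.2 x‖ ^ 2)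
              + 2 * ∫ x in Ω, DD χ x * ‖p.1 x‖ ^ 2))) := by
          refine add_le_add ?_ (add_le_add ?_ ?_)
          · rw [ofReal_integral_eq_lintegral_ofReal iR (Eventually.of_forall R0)]
            exact lintegral_mono' hmono le_rfl
          · simp_rw [ENNReal.ofReal_mul (show 0 ≤ 3 * κ by positivity)]
            rw [lintegral_const_mul' _ _ ENNReal.ofReal_ne_top]
            gcongr
          · simp_rw [ENNReal.ofReal_mul hκ]
            rw [lintegral_const_mul' _ _ ENNReal.ofReal_ne_top]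
            gcongr
      _ = _ := by
          rw [← ENNReal.ofReal_add (by positivity) (by positivity),
            ← ENNReal.ofReal_add RR0 (by positivity)]
          congr 1
          ring
  refine (int_le_toReal _).trans ?_
  refine (ENNReal.toReal_mono ENNReal.ofReal_ne_top key).trans ?_
  rw [ENNReal.toReal_ofReal (by positivity), eR, eJ, eN]
  have h5 := mul_le_mul_of_nonneg_left l1 (show 0 ≤ 3 * κ by positivity)
  linarith only [h5]

end Pool.Agent.E8helper68.UD
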