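import Pool.Agent.E8helper68.UD.UD4

/-!
The average over the translates of the cutoff function.
-/

set_option autoImplicit false

open MeasureTheory Set Filter Topology
open scoped InnerProductSpace ContDiff ENNReal

namespace Pool.Agent.E8helper68.UD

open H772R2.NS Pool.Agent.TH340.FF Pool.Agent.R462.HC Pool.Agent.R772.LI Pool.Agent.R772.LV

variable {Ω : Set E3}

/-- the local hypothesis: in `V` the field `U` is nearly parallel to a smooth field -/
def Nb (Ω V : Set E3) (κ β Λ : ℝ) (U : E3 → E3) : Prop :=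
  ∃ e : E3 → E3, ContDiff ℝ 1 e ∧ (∀ x ∈ V, ‖e x‖ ≤ 1 ∧ ‖fderiv ℝ e x‖ ≤ Λ) ∧
    ∃ W : E3 → ℝ, FB (Ω ∩ V) W ∧
      ∀ᵐ x ∂(volume.restrict (Ω ∩ V)), ‖U x - ⟪e x, U x⟫_ℝ • e x‖ ^ 2 ≤ κ * W x + β

theorem bs_hcs {ρ : ℝ} (hρ : 0 < ρ) (y : E3) : HasCompactSupport fun x => bs ρ (y - x) := by
  refine HasCompactSupport.intro (isCompact_closedBall y ρ) fun x hx => bs_zero hρ ?_
  rw [Metric.mem_closedBall, not_le, dist_comm, dist_eq_norm] at hx
  exact hx.le

theorem bs_supp {ρ : ℝ} (hρ : 0 < ρ) {x₀ y : E3} (hxy : ‖y - x₀‖ < ρ) :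
    tsupport (fun x => bs ρ (y - x)) ⊆ Metric.ball x₀ (2 * ρ) := by
  have h1 : tsupport (fun x => bs ρ (y - x)) ⊆ Metric.closedBall y ρ := by
    refine closure_minimal (fun x hx => ?_) Metric.isClosed_closedBall
    by_contra hcon
    apply hx
    rw [Metric.mem_closedBall, not_le, dist_comm, dist_eq_norm] at hcon
    exact bs_zero hρ hcon.le
  refine h1.trans fun x hx => ?_
  rw [Metric.mem_closedBall] at hx
  rw [Metric.mem_ball]
  calc dist x x₀ ≤ dist x y + dist y x₀ := dist_triangle _ _ _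
    _ < ρ + ρ := by
      rw [dist_eq_norm y x₀]
      linarith
    _ = 2 * ρ := by ring

theorem h0_hcs {ρ : ℝ} (hρ : 0 < ρ) (y : E3) : HasCompactSupport fun x : E3 => h0 ρ (y - x) :=
  (bs_hcs hρ y).comp_left (g := fun t : ℝ => t ^ 2) (by simp)

/-- **The averaged bound.** -/
theorem ud_avg (hΩ : MeasurableSet Ω) {κ β Λ ρ : ℝ} (hκ : 0 ≤ κ) (hβ : 0 ≤ β) (hΛ : 0 ≤ Λ)
    (hρ : 0 < ρ) {p : L2V Ω × L2M Ω} (hp : p ∈ graphW Ω)
    (hQ : ∀ x ∈ Ω, Nb Ω (Metric.ball x (2 * ρ)) κ β Λ p.1) {φ : E3 → E3} (hφ : IsTest Ω φ) :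
    -∫ x in Ω, TT p φ x
      ≤ (1 + 2 * κ) * (∫ x in Ω, ‖p.2 x‖ ^ 2) + (1 + 6 * κ) * (∫ x, JJ φ x)
        + β * (∫ x in Ω, ‖p.1 x‖ ^ 2) + 3 * β * (∫ x, NN φ x)
        + 7 * Λ * (∫ x in Ω, ‖p.1 x‖ ^ 2 * ‖φ x‖)
        + C0 * (ρ⁻¹) ^ 2 * ((2 + 2 * κ) * (∫ x in Ω, ‖p.1 x‖ ^ 2) + 6 * κ * ∫ x, NN φ x) := by
  have hN := NN_nonneg φ
  have hJ := JJ_nonneg φ
  have iT : Integrable (TT p φ) (volume.restrict Ω) :=
    (TT_int hφ (f := fun _ => 1) continuous_const p).congr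
      (Eventually.of_forall fun x => one_mul _)
  have iU : Integrable (fun x => ‖p.1 x‖ ^ 2) (volume.restrict Ω) := sq_int p.1
  have iG : Integrable (fun x => ‖p.2 x‖ ^ 2) (volume.restrict Ω) := sq_int p.2
  have iUN : Integrable (fun x => ‖p.1 x‖ ^ 2 * ‖φ x‖) (volume.restrict Ω) :=
    (UN_int hφ (f := fun _ => 1) continuous_const p.1).congr
      (Eventually.of_forall fun x => one_mul _)
  have iJ := JJ_int' hφ.smooth hφ.compact
  have iN := NN_int' hφ.smooth hφ.compact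
  -- the combination
  set S : E3 → ℝ := fun x => TT p φ x + (1 + 2 * κ) * ‖p.2 x‖ ^ 2 + β * ‖p.1 x‖ ^ 2
    + 7 * Λ * (‖p.1 x‖ ^ 2 * ‖φ x‖) with hS
  have iS : Integrable S (volume.restrict Ω) :=
    ((iT.add (iG.const_mul (1 + 2 * κ))).add (iU.const_mul β)).add (iUN.const_mul (7 * Λ))
  have eS : ∀ (μ : Measure E3) (f : E3 → ℝ), Integrable (fun x => f x * TT p φ x) μ →
      Integrable (fun x => f x * ‖p.2 x‖ ^ 2) μ → Integrable (fun x => f x * ‖p.1 x‖ ^ 2) μ →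
      Integrable (fun x => f x * (‖p.1 x‖ ^ 2 * ‖φ x‖)) μ →
      ∫ x, f x * S x ∂μ = (∫ x, f x * TT p φ x ∂μ) + (1 + 2 * κ) * (∫ x, f x * ‖p.2 x‖ ^ 2 ∂μ)
        + β * (∫ x, f x * ‖p.1 x‖ ^ 2 ∂μ) + 7 * Λ * ∫ x, f x * (‖p.1 x‖ ^ 2 * ‖φ x‖) ∂μ := by
    intro μ f j1 j2 j3 j4
    have k1 : Integrable (fun x => f x * TT p φ x + (1 + 2 * κ) * (f x * ‖p.2 x‖ ^ 2)) μ :=
      j1.add (j2.const_mul _)
    have k2 : Integrable (fun x => f x * TT p φ x + (1 + 2 * κ) * (f x * ‖p.2 x‖ ^ 2)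
      + β * (f x * ‖p.1 x‖ ^ 2)) μ := k1.add (j3.const_mul _)
    rw [← integral_const_mul, ← integral_const_mul, ← integral_const_mul,
      ← integral_add j1 (j2.const_mul _), ← integral_add k1 (j3.const_mul _),
      ← integral_add k2 (j4.const_mul _)]
    refine integral_congr_ae (Eventually.of_forall fun x => ?_)
    show f x * S x = f x * TT p φ x + (1 + 2 * κ) * (f x * ‖p.2 x‖ ^ 2)
      + β * (f x * ‖p.1 x‖ ^ 2) + 7 * Λ * (f x * (‖p.1 x‖ ^ 2 * ‖φ x‖))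
    simp only [hS]
    ring
  set Q : E3 → ℝ := fun x => (1 + 6 * κ) * JJ φ x + 3 * β * NN φ x with hQd
  have iQ : Integrable Q := (iJ.const_mul _).add (iN.const_mul _)
  have Q0 : ∀ x, 0 ≤ Q x := fun x => by
    have h1 := hN x
    have h2 := hJ x
    simp only [hQd]
    positivity
  set F₁ : E3 → ℝ := fun x => -(Ω.indicator S x) - Q x with hF1
  have iI : Integrable (Ω.indicator S) := (integrable_indicator_iff hΩ).2 iS
  have iF₁ : Integrable F₁ := iI.neg.sub iQ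
  set D : E3 → ℝ := Ω.indicator fun x => ‖p.1 x‖ ^ 2 with hD
  have iD : Integrable D := (integrable_indicator_iff hΩ).2 iU
  have D0 : ∀ x, 0 ≤ D x := fun x => indicator_nonneg (fun x _ => sq_nonneg _) x
  set F₂ : E3 → ℝ := fun x => (2 + 2 * κ) * D x + 6 * κ * NN φ x with hF2
  have iF₂ : Integrable F₂ := (iD.const_mul _).add (iN.const_mul _)
  have H : ∀ y, ∫ x, F₁ x * h0 ρ (y - x) ≤ ∫ x, F₂ x * h1 ρ (y - x) := by
    intro y
    have c0 : Continuous fun x : E3 => h0 ρ (y - x) :=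
      (h0_cont ρ).comp (continuous_const.sub continuous_id)
    have c1 : Continuous fun x : E3 => h1 ρ (y - x) :=
      (h1_cont ρ).comp (continuous_const.sub continuous_id)
    have s0 : HasCompactSupport fun x : E3 => h0 ρ (y - x) := h0_hcs hρ y
    have eh1 : ∀ x, h1 ρ (y - x) = DD (fun x => bs ρ (y - x)) x := fun x =>
      (bs_sub_fderiv ρ y x).symm
    have s1 : HasCompactSupport fun x : E3 => h1 ρ (y - x) := by
      simp_rw [eh1]
      exact ((bs_hcs hρ y).fderiv (𝕜 := ℝ)).comp_left (g := fun L : E3 →L[ℝ] ℝ => ‖L‖ ^ 2)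
        (by simp)
    have iJh : Integrable fun x => h0 ρ (y - x) * JJ φ x := iJJ hφ c0
    have iNh : Integrable fun x => h0 ρ (y - x) * NN φ x := iNN hφ c0
    have iNh1 : Integrable fun x => h1 ρ (y - x) * NN φ x := iNN hφ c1
    have iDh1 : Integrable fun x => h1 ρ (y - x) * D x := bdd_int c1 s1 iD
    have iIh : Integrable fun x => h0 ρ (y - x) * Ω.indicator S x := bdd_int c0 s0 iI
    have eF2 : ∫ x, F₂ x * h1 ρ (y - x)
        = (2 + 2 * κ) * (∫ x in Ω, h1 ρ (y - x) * ‖p.1 x‖ ^ 2)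
          + 6 * κ * ∫ x, h1 ρ (y - x) * NN φ x := by
      have e1 : ∫ x in Ω, h1 ρ (y - x) * ‖p.1 x‖ ^ 2 = ∫ x, h1 ρ (y - x) * D x := by
        rw [← integral_indicator hΩ]
        refine integral_congr_ae (Eventually.of_forall fun x => ?_)
        simp only [hD]
        by_cases hx : x ∈ Ω
        · rw [indicator_of_mem hx, indicator_of_mem hx]
        · rw [indicator_of_notMem hx, indicator_of_notMem hx, mul_zero]
      rw [e1, ← integral_const_mul, ← integral_const_mul,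
        ← integral_add (iDh1.const_mul _) (iNh1.const_mul _)]
      refine integral_congr_ae (Eventually.of_forall fun x => ?_)
      show ((2 + 2 * κ) * D x + 6 * κ * NN φ x) * h1 ρ (y - x)
        = (2 + 2 * κ) * (h1 ρ (y - x) * D x) + 6 * κ * (h1 ρ (y - x) * NN φ x)
      ring
    have eQ : ∫ x, h0 ρ (y - x) * Q x
        = (1 + 6 * κ) * (∫ x, h0 ρ (y - x) * JJ φ x)
          + 3 * β * ∫ x, h0 ρ (y - x) * NN φ x := by
      rw [← integral_const_mul, ← integral_const_mul,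
        ← integral_add (iJh.const_mul _) (iNh.const_mul _)]
      refine integral_congr_ae (Eventually.of_forall fun x => ?_)
      show h0 ρ (y - x) * Q x = (1 + 6 * κ) * (h0 ρ (y - x) * JJ φ x)
        + 3 * β * (h0 ρ (y - x) * NN φ x)
      simp only [hQd]
      ring
    have iQh : Integrable fun x => h0 ρ (y - x) * Q x := bdd_int c0 s0 iQ
    have eI : ∫ x, h0 ρ (y - x) * Ω.indicator S x = ∫ x in Ω, h0 ρ (y - x) * S x := by
      rw [← integral_indicator hΩ]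
      refine integral_congr_ae (Eventually.of_forall fun x => ?_)
      by_cases hx : x ∈ Ω
      · simp only [indicator_of_mem hx]
      · simp only [indicator_of_notMem hx, mul_zero]
    have eF : ∫ x, F₁ x * h0 ρ (y - x)
        = -(∫ x in Ω, h0 ρ (y - x) * S x) - ∫ x, h0 ρ (y - x) * Q x := by
      rw [← eI, ← intns iIh iQh]
      refine integral_congr_ae (Eventually.of_forall fun x => ?_)
      show (-(Ω.indicator S x) - Q x) * h0 ρ (y - x)
        = -(h0 ρ (y - x) * Ω.indicator S x) - h0 ρ (y - x) * Q x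
      ring
    rw [eF]
    by_cases hy : ∃ x ∈ Ω, ‖y - x‖ < ρ
    · obtain ⟨x₀, hx₀, hxy⟩ := hy
      obtain ⟨e, he, he1, W, hW, hw⟩ := hQ x₀ hx₀
      have key := tr hΩ hκ hβ hΛ hp he he1 hW hw hφ (bs_sub_smooth ρ y) (bs_hcs hρ y)
        (bs_supp hρ hxy) Metric.isOpen_ball.measurableSet
      have e0 : ∀ x, bs ρ (y - x) ^ 2 = h0 ρ (y - x) := fun x => rfl
      simp only [e0, bs_sub_fderiv] at key
      rw [eS (volume.restrict Ω) (fun x => h0 ρ (y - x)) (TT_int hφ c0 p) (bdd_int c0 s0 iG)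
        (bdd_int c0 s0 iU) (UN_int hφ c0 p.1), eQ, eF2]
      linarith only [key]
    · have hz : ∫ x in Ω, h0 ρ (y - x) * S x = 0 := by
        refine setIntegral_eq_zero_of_forall_eq_zero fun x hx => ?_
        have h2 : ρ ≤ ‖y - x‖ := by
          by_contra hcon
          exact hy ⟨x, hx, not_le.1 hcon⟩
        unfold h0
        rw [bs_zero hρ h2]
        ring
      have h1' : 0 ≤ ∫ x, h0 ρ (y - x) * Q x :=
        integral_nonneg fun x => mul_nonneg (h0_nonneg _ _) (Q0 x)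
      have h2' : 0 ≤ ∫ x, F₂ x * h1 ρ (y - x) := by
        refine integral_nonneg fun x => mul_nonneg ?_ (h1_nonneg _ _)
        have h3 := D0 x
        have h4 := hN x
        simp only [hF2]
        positivity
      rw [hz]
      linarith
  have key := avg iF₁ iF₂ (h0_int hρ) (h1_int hρ) H
  have e1 : ∫ x, F₁ x = -(∫ x in Ω, S x) - ∫ x, Q x := by
    rw [hF1, intns iI iQ, integral_indicator hΩ]
  have e2 : ∫ x, Q x = (1 + 6 * κ) * (∫ x, JJ φ x) + 3 * β * ∫ x, NN φ x := by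
    rw [← integral_const_mul, ← integral_const_mul,
      ← integral_add (iJ.const_mul _) (iN.const_mul _)]
  have e3 : ∫ x in Ω, S x = (∫ x in Ω, TT p φ x) + (1 + 2 * κ) * (∫ x in Ω, ‖p.2 x‖ ^ 2)
      + β * (∫ x in Ω, ‖p.1 x‖ ^ 2) + 7 * Λ * ∫ x in Ω, ‖p.1 x‖ ^ 2 * ‖φ x‖ := by
    have h1 := eS (volume.restrict Ω) (fun _ => 1)
    simp only [one_mul] at h1
    exact h1 iT iG iU iUN
  have e4 : ∫ x, F₂ x = (2 + 2 * κ) * (∫ x in Ω, ‖p.1 x‖ ^ 2) + 6 * κ * ∫ x, NN φ x := by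
    rw [← integral_indicator hΩ, ← integral_const_mul, ← integral_const_mul,
      ← integral_add (iD.const_mul _) (iN.const_mul _)]
  rw [int_h0 hρ, int_h1 hρ, e1, e2, e3, e4] at key
  have hI := I0_pos
  have hρ3 : 0 < ρ ^ 3 := by positivity
  set a := ∫ x in Ω, TT p φ x
  set b := ∫ x in Ω, ‖p.2 x‖ ^ 2
  set c := ∫ x in Ω, ‖p.1 x‖ ^ 2
  set d := ∫ x, JJ φ x
  set n := ∫ x, NN φ x
  set l := ∫ x in Ω, ‖p.1 x‖ ^ 2 * ‖φ x‖
  have key2 : -(a + (1 + 2 * κ) * b + β * c + 7 * Λ * l) - ((1 + 6 * κ) * d + 3 * β * n)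
      ≤ C0 * (ρ⁻¹) ^ 2 * ((2 + 2 * κ) * c + 6 * κ * n) := by
    have h1 : (-(a + (1 + 2 * κ) * b + β * c + 7 * Λ * l) - ((1 + 6 * κ) * d + 3 * β * n))
        * (ρ ^ 3 * I0) ≤ (C0 * (ρ⁻¹) ^ 2 * ((2 + 2 * κ) * c + 6 * κ * n)) * (ρ ^ 3 * I0) := by
      refine key.trans (le_of_eq ?_)
      have : C0 * I0 = I1 := div_mul_cancel₀ _ hI.ne'
      rw [← this]
      ring
    exact le_of_mul_le_mul_right h1 (by positivity)
  linarith only [key2]

end Pool.Agent.E8helper68.UD
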