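import Pool.Agent.E8helper68.UD.UD5
import Pool.Agent.E8helper68.UD.PubUD

/-!
The bound for all fields in the space, and the public definitions.
-/

set_option autoImplicit false

open MeasureTheory Set Filter Topology
open scoped InnerProductSpace ContDiff ENNReal

namespace Pool.Agent.E8helper68.UD

section inner

open H772R2.NS Pool.Agent.TH340.FF Pool.Agent.R462.HC Pool.Agent.R772.LI Pool.Agent.R772.LV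

variable {Ω : Set E3}

theorem dv_zero (x : E3) : dv (0 : E3 → E3) x = 0 := by
  unfold dv
  simp [jac_zero]

theorem inner_tens (a : E3) (A : M3) : ⟪tens a, A⟫_ℝ = ⟪a, mv A a⟫_ℝ := by
  rw [inner_M3, inner_E3]
  simp only [tens_apply, mv_apply, Fin.sum_univ_three]
  ring

/-- the convective term -/
theorem conv_eq (hΩ : MeasurableSet Ω) {φ : E3 → E3} (hφ : IsTest Ω φ) {q : L2V Ω × L2M Ω}
    (hq2 : q.2 =ᵐ[volume.restrict Ω] jac φ) {p : L2V Ω × L2M Ω} (hp : p ∈ graphW Ω) :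
    ⟪tensL p.1, q.2⟫_ℝ = -∫ x in Ω, TT p φ x := by
  obtain ⟨iE, hE⟩ := graph_id hφ (contDiff_const (c := (1 : ℝ))) (contDiff_const (c := (0 : E3))) hp
  have iT : Integrable (TT p φ) (volume.restrict Ω) :=
    (TT_int hφ (f := fun _ => 1) continuous_const p).congr
      (Eventually.of_forall fun x => one_mul _)
  have iC : Integrable (fun x => ⟪tensL p.1 x, q.2 x⟫_ℝ) (volume.restrict Ω) :=
    L2.integrable_inner _ _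
  have e1 : (fun x => EE (fun _ => (1 : ℝ)) (fun _ => (0 : E3)) φ x (p.1 x) (p.2 x))
      =ᵐ[volume.restrict Ω] fun x => TT p φ x + ⟪tensL p.1 x, q.2 x⟫_ℝ := by
    filter_upwards [tensL_coe hΩ hp, hq2] with x a b
    rw [a, b, inner_tens, mv_jac]
    unfold EE TT
    simp
    rw [real_inner_comm]
  rw [integral_congr_ae e1, integral_add iT iC] at hE
  rw [L2.inner_def]
  linarith

theorem norm_toLp {F : Type*} [NormedAddCommGroup F] (z : Lp F 2 ((volume : Measure E3).restrict Ω)) :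
    ∃ g : Lp ℝ 2 (volume.restrict Ω), ‖g‖ = ‖z‖ ∧ ∀ᵐ x ∂(volume.restrict Ω), g x = ‖z x‖ := by
  have m := (Lp.memLp z).norm
  refine ⟨m.toLp (fun x => ‖z x‖), ?_, m.coeFn_toLp⟩
  rw [Lp.norm_toLp, eLpNorm_norm]
  exact (Lp.norm_def z).symm

/-- **The bound for all fields in the space.** -/
theorem ud_graph (hΩ : MeasurableSet Ω) {κ β Λ ρ : ℝ} (hκ : 0 ≤ κ) (hβ : 0 ≤ β) (hΛ : 0 ≤ Λ)
    (hρ : 0 < ρ) {U : L2V Ω} {G : L2M Ω} (hU : (U, G) ∈ graphW Ω)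
    (hQ : ∀ x ∈ Ω, Nb Ω (Metric.ball x ρ) κ β Λ U) {p : L2V Ω × L2M Ω} (hp : p ∈ graphW Ω) :
    |⟪tensL U, p.2⟫_ℝ| ≤ (1 + 2 * κ) * ‖G‖ ^ 2 + (1 + 6 * κ) * ‖p.2‖ ^ 2
      + (β + 4 * C0 * (2 + 2 * κ) / ρ ^ 2) * ‖U‖ ^ 2
      + (3 * β + 24 * κ * C0 / ρ ^ 2) * ‖p.1‖ ^ 2 + 7 * Λ * (‖tensL U‖ * ‖p.1‖) := by
  have hQ' : ∀ x ∈ Ω, Nb Ω (Metric.ball x (2 * (ρ / 2))) κ β Λ U := by
    have e : 2 * (ρ / 2) = ρ := by ring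
    rw [e]
    exact hQ
  have key : ∀ p ∈ graphW Ω, ⟪tensL U, p.2⟫_ℝ ≤ (1 + 2 * κ) * ‖G‖ ^ 2 + (1 + 6 * κ) * ‖p.2‖ ^ 2
      + (β + 4 * C0 * (2 + 2 * κ) / ρ ^ 2) * ‖U‖ ^ 2
      + (3 * β + 24 * κ * C0 / ρ ^ 2) * ‖p.1‖ ^ 2 + 7 * Λ * (‖tensL U‖ * ‖p.1‖) := by
    intro p hp
    have hc : Continuous fun p : L2V Ω × L2M Ω => ⟪tensL U, p.2⟫_ℝ - ((1 + 2 * κ) * ‖G‖ ^ 2
      + (1 + 6 * κ) * ‖p.2‖ ^ 2 + (β + 4 * C0 * (2 + 2 * κ) / ρ ^ 2) * ‖U‖ ^ 2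
      + (3 * β + 24 * κ * C0 / ρ ^ 2) * ‖p.1‖ ^ 2 + 7 * Λ * (‖tensL U‖ * ‖p.1‖)) := by fun_prop
    have k := graphW_le (fun p : L2V Ω × L2M Ω => ⟪tensL U, p.2⟫_ℝ - ((1 + 2 * κ) * ‖G‖ ^ 2
      + (1 + 6 * κ) * ‖p.2‖ ^ 2 + (β + 4 * C0 * (2 + 2 * κ) / ρ ^ 2) * ‖U‖ ^ 2
      + (3 * β + 24 * κ * C0 / ρ ^ 2) * ‖p.1‖ ^ 2 + 7 * Λ * (‖tensL U‖ * ‖p.1‖)))
      hc.continuousOn (fun q hq => ?_) hp
    · have k' : ⟪tensL U, p.2⟫_ℝ - ((1 + 2 * κ) * ‖G‖ ^ 2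
        + (1 + 6 * κ) * ‖p.2‖ ^ 2 + (β + 4 * C0 * (2 + 2 * κ) / ρ ^ 2) * ‖U‖ ^ 2
        + (3 * β + 24 * κ * C0 / ρ ^ 2) * ‖p.1‖ ^ 2 + 7 * Λ * (‖tensL U‖ * ‖p.1‖)) ≤ 0 := k
      linarith
    obtain ⟨φ, h1, h2, h3⟩ := hq
    have n1 : ‖q.1‖ ^ 2 = ∫ x, NN φ x := norm_test1 h1 h2
    have n2 : ‖q.2‖ ^ 2 = ∫ x, JJ φ x := norm_test2 h1 h3
    have n3 : ‖U‖ ^ 2 = ∫ x in Ω, ‖U x‖ ^ 2 := norm_sq_L2 U
    have n4 : ‖G‖ ^ 2 = ∫ x in Ω, ‖G x‖ ^ 2 := norm_sq_L2 G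
    have e1 := ud_avg (p := (U, G)) hΩ hκ hβ hΛ (half_pos hρ) hU hQ' h1
    have e2' := conv_eq (q := q) (p := (U, G)) hΩ h1 h3 hU
    have e2 : ⟪tensL U, q.2⟫_ℝ = -∫ x in Ω, TT (U, G) φ x := e2'
    have e3 : ∫ x in Ω, ‖U x‖ ^ 2 * ‖φ x‖ ≤ ‖tensL U‖ * ‖q.1‖ := by
      obtain ⟨g, hg, hge⟩ := norm_toLp (tensL U)
      have k1 := cs g q.1
      rw [hg] at k1
      refine le_trans (le_of_eq ?_) k1
      refine integral_congr_ae ?_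
      filter_upwards [hge, h2, tensL_coe hΩ hU] with x a b c
      have c' : tensL U x = tens (U x) := c
      rw [a, b, c', norm_tens, abs_of_nonneg (sq_nonneg _)]
    have e4 : 7 * Λ * (∫ x in Ω, ‖U x‖ ^ 2 * ‖φ x‖) ≤ 7 * Λ * (‖tensL U‖ * ‖q.1‖) :=
      mul_le_mul_of_nonneg_left e3 (by positivity)
    simp only at e1
    rw [← n1, ← n2, ← n3, ← n4, ← e2] at e1
    have e6 : C0 * (ρ / 2)⁻¹ ^ 2 * ((2 + 2 * κ) * ‖U‖ ^ 2 + 6 * κ * ‖q.1‖ ^ 2)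
        = 4 * C0 * (2 + 2 * κ) / ρ ^ 2 * ‖U‖ ^ 2 + 24 * κ * C0 / ρ ^ 2 * ‖q.1‖ ^ 2 := by
      field_simp
      ring
    rw [e6] at e1
    show ⟪tensL U, q.2⟫_ℝ - ((1 + 2 * κ) * ‖G‖ ^ 2
        + (1 + 6 * κ) * ‖q.2‖ ^ 2 + (β + 4 * C0 * (2 + 2 * κ) / ρ ^ 2) * ‖U‖ ^ 2
        + (3 * β + 24 * κ * C0 / ρ ^ 2) * ‖q.1‖ ^ 2 + 7 * Λ * (‖tensL U‖ * ‖q.1‖)) ≤ 0
    linarith
  have k1 := key p hp
  have k2 := key (-p) ((graphW Ω).neg_mem hp)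
  rw [Prod.snd_neg, Prod.fst_neg, inner_neg_right, norm_neg, norm_neg] at k2
  exact abs_le.2 ⟨by linarith, k1⟩

theorem young4 {A N y g : ℝ} (hA : 0 ≤ A) (hN : 0 ≤ N) (hy : 0 ≤ y) (hg : 0 ≤ g)
    (h : y ^ 2 ≤ N * g ^ 3) : A * y ≤ g ^ 2 + A ^ 4 * N ^ 2 := by
  have h0 : (A * y) ^ 2 ≤ A ^ 2 * N * g ^ 3 := by
    calc (A * y) ^ 2 = A ^ 2 * y ^ 2 := by ring
      _ ≤ A ^ 2 * (N * g ^ 3) := by gcongr
      _ = _ := by ring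
  rcases le_total (A ^ 2 * N) g with h1 | h1
  · have h2 : (A * y) ^ 2 ≤ (g ^ 2) ^ 2 := by
      calc (A * y) ^ 2 ≤ A ^ 2 * N * g ^ 3 := h0
        _ ≤ g * g ^ 3 := by gcongr
        _ = _ := by ring
    have h3 : A * y ≤ g ^ 2 := (sq_le_sq₀ (by positivity) (by positivity)).1 h2
    have : 0 ≤ A ^ 4 * N ^ 2 := by positivity
    linarith
  · have h2 : (A * y) ^ 2 ≤ (A ^ 4 * N ^ 2) ^ 2 := by
      calc (A * y) ^ 2 ≤ A ^ 2 * N * g ^ 3 := h0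
        _ ≤ A ^ 2 * N * (A ^ 2 * N) ^ 3 := by gcongr
        _ = _ := by ring
    have h3 : A * y ≤ A ^ 4 * N ^ 2 := (sq_le_sq₀ (by positivity) (by positivity)).1 h2
    have : 0 ≤ g ^ 2 := by positivity
    linarith

theorem hardy_pt {n K B r : ℝ} (hn : 0 ≤ n) (hB : 0 ≤ B) (hK : 0 ≤ K) (h : n ≤ K / r + √B) :
    n ^ 2 ≤ (K + 8 * K ^ 2) * (4 * r ^ 2)⁻¹ + 2 * B := by
  have hs : √B ^ 2 = B := Real.sq_sqrt hB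
  have e1 : 8 * K ^ 2 * (4 * r ^ 2)⁻¹ = 2 * (K / r) ^ 2 := by
    rw [mul_inv, div_pow]
    ring
  have e2 : 0 ≤ K * (4 * r ^ 2)⁻¹ := by positivity
  have e3 : n ^ 2 ≤ (K / r + √B) ^ 2 := by gcongr
  nlinarith [sq_nonneg (K / r - √B)]

end inner

open H772R2.NS.Pub Pool.Agent.R462.HC

/-- the public condition gives the local bound -/
theorem nb_of {Ω V : Set R3} {K B Λ : ℝ} (hK : 0 ≤ K) (hB : 0 ≤ B) {u : L2 Ω R3}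
    (h : NearlyParallelIn V K B Λ u) :
    Nb (show Set H772R2.NS.E3 from Ω) (show Set H772R2.NS.E3 from V) (K + 8 * K ^ 2) (2 * B) Λ
      (show H772R2.NS.E3 → H772R2.NS.E3 from u.fn) := by
  obtain ⟨d, hd, hd1, hh⟩ := h
  rcases hh with ⟨W, hW, hL⟩ | ⟨y, hL⟩
  · refine ⟨d, hd, hd1, W, FB.of_pub hW, hL.mono fun x hx => ?_⟩
    refine le_trans (show _ ≤ K * W x + B from hx) ?_
    have h1 := hW.nonneg x
    have h2 : 0 ≤ 8 * K ^ 2 * W x := by positivity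
    linarith
  · exact ⟨d, hd, hd1, _, FB.of_pub (hardy_formBdd (Ω ∩ V) y), hL.mono fun x hx =>
      hardy_pt (norm_nonneg _) hB hK hx⟩

end Pool.Agent.E8helper68.UD
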